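import Pool.Agent.Helper42.LS.FinB

open Filter Topology

namespace Pool.Agent.Helper42.LS

lemma fin_rad_pos (D : ℤ) : 0 ≤ ∑ p ∈ D.natAbs.primeFactors, Real.log ((p : ℕ) : ℝ) :=
  Finset.sum_nonneg (fun p hp => Real.log_nonneg
    (by exact_mod_cast (Nat.prime_of_mem_primeFactors hp).one_le))

lemma fin_rad_le (D : ℤ) (hD : D ≠ 0) :
    ∑ p ∈ D.natAbs.primeFactors, Real.log ((p : ℕ) : ℝ) ≤ Real.log |((D : ℤ) : ℝ)| := by
  rw [fin_log_disc D hD]
  apply Finset.sum_le_sum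
  intro p hp
  have hpp := Nat.prime_of_mem_primeFactors hp
  have h1 : (1 : ℝ) ≤ padicValNat p D.natAbs := by
    have : Fact p.Prime := ⟨hpp⟩
    have := one_le_padicValNat_of_dvd (p := p) (by simpa using hD)
      (Nat.dvd_of_mem_primeFactors hp)
    exact_mod_cast this
  have h2 : 0 ≤ Real.log (p : ℝ) := Real.log_nonneg (by exact_mod_cast hpp.one_le)
  nlinarith

lemma fin_card_le (D : ℤ) : (D.natAbs.primeFactors.card : ℝ) * Real.log 2 ≤
    ∑ p ∈ D.natAbs.primeFactors, Real.log ((p : ℕ) : ℝ) := by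
  rw [← nsmul_eq_mul, ← Finset.sum_const]
  apply Finset.sum_le_sum
  intro p hp
  exact Real.log_le_log (by norm_num) (by exact_mod_cast (Nat.prime_of_mem_primeFactors hp).two_le)

theorem st_R4 (hMT : ST_MT) (hNC : ST_NC) (hCA : ST_CA) (hCB : ST_CB) (hCK : ST_CK) : ST_R4 := by
  obtain ⟨c₀, hc₀, hR1⟩ := st_R1 hMT hNC hCA hCB hCK
  obtain ⟨C₀, hC₀, hMT⟩ := hMT
  -- if κ HE ≤ C1 use R1 ; C1 = 4 * 160 * C₀ + ...
  set C1 : ℝ := 1280 * C₀ + 8 * C₀ + 1 with hC1
  have hC10 : 0 < C1 := by positivity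
  obtain ⟨cs, hcs, hsmall⟩ := fin_small hNC (24 * C₀ + 1)
  obtain ⟨mm, hmm⟩ : ∃ mm : ℝ, mm = min (cs / (24 * C₀ + 1)) (min (c₀ / C1 ^ 3)
    ((1 / 4) ^ 3 / 2 / 5184000)) := ⟨_, rfl⟩
  have hmm0 : 0 < mm := by
    rw [hmm]
    exact lt_min (by positivity) (lt_min (by positivity) (by positivity))
  have hmm1 : mm ≤ cs / (24 * C₀ + 1) := by rw [hmm]; exact min_le_left _ _
  have hmm2 : mm ≤ c₀ / C1 ^ 3 := by rw [hmm]; exact (min_le_right _ _).trans (min_le_left _ _)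
  have hmm3 : mm ≤ (1 / 4) ^ 3 / 2 / 5184000 := by
    rw [hmm]; exact (min_le_right _ _).trans (min_le_right _ _)
  refine ⟨mm, hmm0, ?_⟩
  intro A B hD hq x y e hg he κ hκ hκ1 hsh
  have hH1 := fin_HE_pos A B hD
  have hHpos : 0 < HE A B := by linarith
  have hκ3 : κ ^ 3 ≤ 1 := pow_le_one₀ hκ.le hκ1
  by_cases hHs : HE A B ≤ 24 * C₀ + 1
  · have h1 := hsmall A B hD hHs x y e hg he
    calc mm * κ ^ 3 * HE A B ≤ cs / (24 * C₀ + 1) * 1 * (24 * C₀ + 1) := by gcongr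
      _ = cs := by field_simp
      _ ≤ e := h1
  push Not at hHs
  by_cases hκs : κ * HE A B ≤ C1
  · have h1 := hR1 A B hD hq x y e hg he
    have h2 : HE A B ^ (-2 : ℝ) ≤ HE A B ^ (-(17 / 23 : ℝ)) :=
      Real.rpow_le_rpow_of_exponent_le hH1 (by norm_num)
    have h3 : κ ^ 3 * HE A B ≤ C1 ^ 3 * HE A B ^ (-2 : ℝ) := by
      have h4 : (κ * HE A B) ^ 3 ≤ C1 ^ 3 := pow_le_pow_left₀ (by positivity) hκs 3
      have h5 : HE A B ^ (-2 : ℝ) = 1 / HE A B ^ 2 := by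
        rw [Real.rpow_neg hHpos.le, one_div]; norm_num
      rw [h5, mul_one_div, le_div_iff₀ (by positivity)]
      calc κ ^ 3 * HE A B * HE A B ^ 2 = (κ * HE A B) ^ 3 := by ring
        _ ≤ C1 ^ 3 := h4
    calc mm * κ ^ 3 * HE A B = mm * (κ ^ 3 * HE A B) := by ring
      _ ≤ c₀ / C1 ^ 3 * (C1 ^ 3 * HE A B ^ (-2 : ℝ)) := by gcongr
      _ = c₀ * HE A B ^ (-2 : ℝ) := by field_simp
      _ ≤ c₀ * HE A B ^ (-(17 / 23 : ℝ)) := by gcongr
      _ ≤ e := h1
  push Not at hκs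
  obtain ⟨w, t, n, hM⟩ := hMT A B hD hq x y e hg he
  have hM' : MData C₀ A B e w t n := hM
  obtain ⟨htot, -⟩ := fin_total hC₀ hD hM'
  obtain ⟨h1, h2, h3, h4⟩ := hM
  set P := (4 * A ^ 3 + 27 * B ^ 2).natAbs.primeFactors with hP
  set V := insert 0 P with hV
  set W := ∑ v ∈ V, w v with hW
  rw [abs_le] at htot h3
  have hWH : W ≤ 2 * HE A B := by linarith
  have hWH2 : HE A B / 2 ≤ W := by linarith
  have hkey : ∃ v₀ ∈ V, κ / 4 * W ≤ w v₀ := by
    rcases hsh with h | ⟨p, hp, h⟩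
    · refine ⟨0, Finset.mem_insert_self _ _, ?_⟩
      have : κ * W ≤ κ * (2 * HE A B) := mul_le_mul_of_nonneg_left hWH hκ.le
      linarith
    · have hpP : p ∈ P := by
        rw [hP, Nat.mem_primeFactors]
        refine ⟨hp, ?_, by simpa using hD⟩
        by_contra hcon
        rw [padicValNat.eq_zero_of_not_dvd hcon] at h
        have : 0 < κ * HE A B := by positivity
        simp at h
        linarith
      refine ⟨p, Finset.mem_insert_of_mem hpP, ?_⟩
      have h5 := (h2 p hpP).2.2.2.1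
      rw [abs_le] at h5
      have : κ * W ≤ κ * (2 * HE A B) := mul_le_mul_of_nonneg_left hWH hκ.le
      linarith
  obtain ⟨v₀, hv₀, hw₀⟩ := hkey
  have h5 := fin_CK hCK hM' (κ := κ / 4) (by positivity) (by linarith) hv₀
    (by rw [← hP, ← hV, ← hW]; exact hw₀) (by
      rw [← hP, ← hV, ← hW]
      have : κ * (HE A B / 2) ≤ κ * W := mul_le_mul_of_nonneg_left hWH2 hκ.le
      linarith)
  rw [← hP, ← hV, ← hW] at h5
  calc mm * κ ^ 3 * HE A B ≤ ((1 / 4) ^ 3 / 2 / 5184000) * κ ^ 3 * HE A B := by gcongr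
    _ = (κ / 4) ^ 3 * (HE A B / 2) / 5184000 := by ring
    _ ≤ (κ / 4) ^ 3 * W / 5184000 := by gcongr
    _ ≤ e := h5

theorem st_R2 (hMT : ST_MT) (hNC : ST_NC) (hCA : ST_CA) (hCK : ST_CK) : ST_R2 := by
  obtain ⟨C₀, hC₀, hMT⟩ := hMT
  obtain ⟨cA, hcA, hA⟩ := fin_CA hCA
  have hl2 : 0 < Real.log 2 := Real.log_pos (by norm_num)
  -- threshold for L = log rad
  set L₀ : ℝ := 2 * (C₀ / cA) + 8 with hL₀
  have hL₀8 : 8 ≤ L₀ := by rw [hL₀]; have : 0 ≤ C₀ / cA := by positivity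
                           linarith
  obtain ⟨m, hm⟩ : ∃ m : ℕ, L₀ / Real.log 2 + 1 ≤ m := exists_nat_ge _
  have hm1R : (1 : ℝ) ≤ m := by
    have : 0 ≤ L₀ / Real.log 2 := by positivity
    linarith
  have hm1 : 1 ≤ m := by exact_mod_cast hm1R
  set H₀ : ℝ := 640 * C₀ * m + 24 * C₀ + 24 with hH₀
  have hH₀0 : 0 < H₀ := by positivity
  obtain ⟨cs, hcs, hsmall⟩ := fin_small hNC H₀
  obtain ⟨mm, hmm⟩ : ∃ mm : ℝ, mm = min (cs / H₀) (min ((1 / 2) ^ 3 / 2 / 5184000)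
    (min ((1 / (m : ℝ)) ^ 3 / 2 / 5184000) (cA / (2 ^ 5 * 2 ^ 4 * 8 ^ 5)))) := ⟨_, rfl⟩
  have hmm0 : 0 < mm := by
    rw [hmm]
    exact lt_min (by positivity) (lt_min (by positivity) (lt_min (by positivity) (by positivity)))
  have hmm1 : mm ≤ cs / H₀ := by rw [hmm]; exact min_le_left _ _
  have hmm2 : mm ≤ (1 / 2) ^ 3 / 2 / 5184000 := by
    rw [hmm]; exact (min_le_right _ _).trans (min_le_left _ _)
  have hmm3 : mm ≤ (1 / (m : ℝ)) ^ 3 / 2 / 5184000 := by
    rw [hmm]; exact (min_le_right _ _).trans ((min_le_right _ _).trans (min_le_left _ _))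
  have hmm4 : mm ≤ cA / (2 ^ 5 * 2 ^ 4 * 8 ^ 5) := by
    rw [hmm]; exact (min_le_right _ _).trans ((min_le_right _ _).trans (min_le_right _ _))
  refine ⟨mm, hmm0, ?_⟩
  intro A B hD hq x y e hg he
  have hH1 := fin_HE_pos A B hD
  have hHpos : 0 < HE A B := by linarith
  set L := ∑ p ∈ (4 * A ^ 3 + 27 * B ^ 2).natAbs.primeFactors, Real.log ((p : ℕ) : ℝ) with hL
  set lD := Real.log |((4 * A ^ 3 + 27 * B ^ 2 : ℤ) : ℝ)| with hlD
  have hL0 : 0 ≤ L := fin_rad_pos _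
  have hLD : L ≤ lD := fin_rad_le _ hD
  have hq0 : 0 ≤ L / lD := div_nonneg hL0 (hL0.trans hLD)
  have hq1 : L / lD ≤ 1 := div_le_one_of_le₀ hLD (hL0.trans hLD)
  have hq5 : (L / lD) ^ 5 ≤ 1 := pow_le_one₀ hq0 hq1
  by_cases hHs : HE A B ≤ H₀
  · have h1 := hsmall A B hD hHs x y e hg he
    calc mm * HE A B * (L / lD) ^ 5 ≤ cs / H₀ * H₀ * 1 := by gcongr
      _ = cs := by field_simp
      _ ≤ e := h1
  push Not at hHs
  have hmC : 0 ≤ 640 * C₀ * m := by positivity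
  obtain ⟨w, t, n, hM⟩ := hMT A B hD hq x y e hg he
  have hM' : MData C₀ A B e w t n := hM
  obtain ⟨htot, htot2⟩ := fin_total hC₀ hD hM'
  obtain ⟨h1, h2, h3, h4⟩ := hM
  set P := (4 * A ^ 3 + 27 * B ^ 2).natAbs.primeFactors with hP
  set V := insert 0 P with hV
  set W := ∑ v ∈ V, w v with hW
  rw [abs_le] at htot htot2
  rw [← hlD] at htot2
  have hWH : W ≤ 2 * HE A B := by linarith
  have hWH2 : HE A B / 2 ≤ W := by linarith
  have hWpos : 0 < W := by linarith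
  by_cases hcase : W / 2 ≤ w 0
  · have h5 := fin_CK hCK hM' (κ := 1 / 2) (by norm_num) (by norm_num)
      (Finset.mem_insert_self _ _) (by rw [← hP, ← hV, ← hW]; linarith)
      (by
        rw [← hP, ← hV, ← hW]
        have : 640 * C₀ * 1 ≤ 640 * C₀ * m := by gcongr
        linarith)
    rw [← hP, ← hV, ← hW] at h5
    calc mm * HE A B * (L / lD) ^ 5 ≤ ((1 / 2) ^ 3 / 2 / 5184000) * HE A B * 1 := by gcongr
      _ = (1 / 2) ^ 3 * (HE A B / 2) / 5184000 := by ring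
      _ ≤ (1 / 2) ^ 3 * W / 5184000 := by gcongr
      _ ≤ e := h5
  push Not at hcase
  have hWf : W / 2 ≤ ∑ p ∈ P, w p := by
    have : W = w 0 + ∑ p ∈ P, w p := by
      rw [hW, hV, Finset.sum_insert (by rw [hP]; simp)]
    linarith
  have hsub : P ⊆ V := Finset.subset_insert _ _
  by_cases hLs : L < L₀
  · -- few primes
    have hcard : (V.card : ℝ) ≤ m := by
      have h5 : (P.card : ℝ) * Real.log 2 ≤ L := fin_card_le _
      have h6 : (P.card : ℝ) ≤ L₀ / Real.log 2 := by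
        rw [le_div_iff₀ hl2]; linarith
      have h7 : V.card = P.card + 1 := by
        rw [hV, Finset.card_insert_of_notMem (by rw [hP]; simp)]
      rw [h7]; push_cast; linarith
    have h5 := fin_few hCK hM' m (by exact_mod_cast hcard) hm1 hWpos (by
      rw [← hP, ← hV, ← hW]
      rw [div_mul_eq_mul_div, one_mul, le_div_iff₀ (by linarith)]
      have : 160 * C₀ * m ≤ 640 * C₀ * m / 2 := by
        have : 0 ≤ C₀ * m := by positivity
        linarith
      linarith)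
    rw [← hP, ← hV, ← hW] at h5
    calc mm * HE A B * (L / lD) ^ 5 ≤ ((1 / (m : ℝ)) ^ 3 / 2 / 5184000) * HE A B * 1 := by gcongr
      _ = (1 / (m : ℝ)) ^ 3 * (HE A B / 2) / 5184000 := by ring
      _ ≤ (1 / (m : ℝ)) ^ 3 * W / 5184000 := by gcongr
      _ ≤ e := h5
  push Not at hLs
  -- R ≥ L - 3 ≥ L / 2
  have hR : L / 2 ≤ ∑ p ∈ P, w p / n p := by
    have h5 : L - 4 ≤ ∑ p ∈ P, w p / n p := by
      have h6 : ∑ p ∈ P, (Real.log ((p : ℕ) : ℝ) - (if p < 5 then 2 else 0)) ≤ ∑ p ∈ P, w p / n p := by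
        apply Finset.sum_le_sum
        intro p hp
        have h7 := h2 p hp
        have hpp := Nat.prime_of_mem_primeFactors hp
        by_cases h8 : p < 5
        · rw [if_pos h8]
          have h9 : Real.log (p : ℝ) ≤ 2 := by
            have h10 : (p : ℝ) ≤ 4 := by exact_mod_cast (by omega : p ≤ 4)
            have h11 := Real.log_le_log (by exact_mod_cast hpp.pos) h10
            have h12 : Real.log 4 = 2 * Real.log 2 := by
              rw [show (4 : ℝ) = 2 ^ 2 by norm_num, Real.log_pow]; norm_num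
            have := Real.log_two_lt_d9
            linarith
          have h10 : 0 ≤ w p / n p := div_nonneg (h1 p (hsub hp)) (Nat.cast_nonneg _)
          linarith
        · rw [if_neg h8, sub_zero]
          exact (h7.2.2.2.2 (by omega)).2.1
      rw [Finset.sum_sub_distrib] at h6
      have h7 : ∑ p ∈ P, (if p < 5 then (2 : ℝ) else 0) ≤ 4 := by
        rw [← Finset.sum_filter, Finset.sum_const, nsmul_eq_mul]
        have : P.filter (fun p => p < 5) ⊆ {2, 3} := by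
          intro p hp
          rw [Finset.mem_filter] at hp
          have hpp := Nat.prime_of_mem_primeFactors hp.1
          have := hpp.two_le
          have h4 : p ≠ 4 := by rintro rfl; exact absurd hpp (by norm_num)
          have : p = 2 ∨ p = 3 := by omega
          simpa using this
        have := Finset.card_le_card this
        have h2 : ({2, 3} : Finset ℕ).card = 2 := by decide
        rw [h2] at this
        have : ((P.filter (fun p => p < 5)).card : ℝ) ≤ 2 := by exact_mod_cast this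
        linarith
      linarith
    linarith
  have hLpos : 0 < L := by linarith
  have h5 := hA hC₀ hM' (L / 2) (by positivity) hR (by
    have h6 : C₀ / cA ≤ L / 2 := by linarith
    rw [div_le_iff₀ hcA] at h6
    linarith)
  rw [← hP, ← hV, ← hW] at h5
  have hlD8 : HE A B / 8 ≤ lD := by linarith
  calc mm * HE A B * (L / lD) ^ 5 ≤ (cA / (2 ^ 5 * 2 ^ 4 * 8 ^ 5)) * HE A B * (L / (HE A B / 8)) ^ 5 := by
        gcongr
    _ = cA * (L / 2) ^ 5 / (2 * HE A B) ^ 4 := by field_simp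
    _ ≤ cA * (L / 2) ^ 5 / W ^ 4 := by gcongr
    _ ≤ e := h5

theorem st_R3 (hMT : ST_MT) (hNC : ST_NC) (hCB : ST_CB) : ST_R3 := by
  obtain ⟨C₀, hC₀, hMT⟩ := hMT
  obtain ⟨cB, hcB, hB⟩ := fin_CB hCB
  have hl2 : 0 < Real.log 2 := Real.log_pos (by norm_num)
  have hl21 : Real.log 2 < 1 := by have := Real.log_two_lt_d9; linarith
  have hl2h : 1 / 2 < Real.log 2 := by have := Real.log_two_gt_d9; linarith
  -- threshold
  set X : ℝ := (C₀ * 100 / cB) ^ 3 with hX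
  have hX0 : 0 ≤ X := by positivity
  set H₀ : ℝ := 96 * C₀ + 24 * C₀ + 24 + 4 * X with hH₀
  have hH₀0 : 0 < H₀ := by positivity
  obtain ⟨cs, hcs, hsmall⟩ := fin_small hNC H₀
  obtain ⟨mm, hmm⟩ : ∃ mm : ℝ, mm = min (cs / H₀) (min (1 / 13824)
    (cB * (1 / 20 : ℝ) ^ (8 / 3 : ℝ) / 2)) := ⟨_, rfl⟩
  have hmm0 : 0 < mm := by
    rw [hmm]
    exact lt_min (by positivity) (lt_min (by positivity) (by positivity))
  have hmm1 : mm ≤ cs / H₀ := by rw [hmm]; exact min_le_left _ _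
  have hmm2 : mm ≤ 1 / 13824 := by
    rw [hmm]; exact (min_le_right _ _).trans (min_le_left _ _)
  have hmm3 : mm ≤ cB * (1 / 20 : ℝ) ^ (8 / 3 : ℝ) / 2 := by
    rw [hmm]; exact (min_le_right _ _).trans (min_le_right _ _)
  refine ⟨mm, hmm0, ?_⟩
  intro A B hD hq x y e hg he
  have hH1 := fin_HE_pos A B hD
  have hHpos : 0 < HE A B := by linarith
  set s : ℝ := 1 + nmult A B with hs
  have hs1 : 1 ≤ s := by rw [hs]; have : (0 : ℝ) ≤ nmult A B := Nat.cast_nonneg _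
                         linarith
  have hs0 : 0 < s := by linarith
  have hsp1 : s ^ (-(8 / 3 : ℝ)) ≤ 1 := by
    have := Real.rpow_le_rpow_of_exponent_le hs1 (show (-(8 / 3 : ℝ)) ≤ 0 by norm_num)
    rwa [Real.rpow_zero] at this
  by_cases hHs : HE A B ≤ H₀
  · have h1 := hsmall A B hD hHs x y e hg he
    calc mm * HE A B * s ^ (-(8 / 3 : ℝ)) ≤ cs / H₀ * H₀ * 1 := by gcongr
      _ = cs := by field_simp
      _ ≤ e := h1
  push Not at hHs
  obtain ⟨w, t, n, hM⟩ := hMT A B hD hq x y e hg he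
  have hM' : MData C₀ A B e w t n := hM
  obtain ⟨htot, htot2⟩ := fin_total hC₀ hD hM'
  obtain ⟨h1, h2, h3, h4⟩ := hM
  set P := (4 * A ^ 3 + 27 * B ^ 2).natAbs.primeFactors with hP
  set V := insert 0 P with hV
  set W := ∑ v ∈ V, w v with hW
  rw [abs_le] at htot htot2
  have hWH : W ≤ 2 * HE A B := by linarith
  have hWH2 : HE A B / 2 ≤ W := by linarith
  have hWpos : 0 < W := by linarith
  have hsub : P ⊆ V := Finset.subset_insert _ _
  -- additive part
  set Z := P.filter (fun p : ℕ => 5 ≤ p ∧ (p : ℤ) ∣ A) with hZ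
  have hZV : Z ⊆ V := (Finset.filter_subset _ _).trans hsub
  have hsplit : ∑ v ∈ V \ Z, w v + ∑ v ∈ Z, w v = W := Finset.sum_sdiff hZV
  by_cases hcase : W / 2 ≤ ∑ v ∈ Z, w v
  · -- additive primes dominate
    have h5 := h4 1 le_rfl
    have h6 : W / 24 ≤ ∑ v ∈ V, w v * B2 (((1 : ℕ) : ℝ) * t v) := by
      rw [← Finset.sum_sdiff hZV]
      have h7 : ∑ v ∈ Z, w v * B2 (((1 : ℕ) : ℝ) * t v) = (∑ v ∈ Z, w v) / 6 := by
        rw [Finset.sum_div]
        apply Finset.sum_congr rfl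
        intro v hv
        rw [hZ, Finset.mem_filter] at hv
        rw [(((h2 v hv.1).2.2.2.2) hv.2.1).2.2 hv.2.2, mul_zero, mt_B2_zero]
        ring
      have h8 : -(∑ v ∈ V \ Z, w v) / 12 ≤ ∑ v ∈ V \ Z, w v * B2 (((1 : ℕ) : ℝ) * t v) := by
        rw [neg_div, Finset.sum_div, ← Finset.sum_neg_distrib]
        apply Finset.sum_le_sum
        intro v hv
        have h9 := h1 v (Finset.mem_sdiff.1 hv).1
        have h10 := mt_B2_ge (((1 : ℕ) : ℝ) * t v)
        nlinarith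
      rw [h7]
      linarith
    have h7 : W / 48 ≤ 144 * e := by
      have : (144 * ((1 : ℕ) : ℝ) ^ 2 * e) = 144 * e := by push_cast; ring
      rw [this] at h5
      have h8 : W / 24 ≤ 144 * e + C₀ := h6.trans (sub_le_iff_le_add.1 h5)
      have h9 : C₀ ≤ W / 48 := by
        have h10 : 120 * C₀ ≤ H₀ := by rw [hH₀]; linarith
        linarith
      linarith
    calc mm * HE A B * s ^ (-(8 / 3 : ℝ)) ≤ 1 / 13824 * HE A B * 1 := by gcongr
      _ ≤ e := by linarith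
  push Not at hcase
  have hU : W / 2 ≤ ∑ v ∈ V \ Z, w v := by linarith
  -- cardinality
  have hcard : ((V \ Z).card : ℝ) ≤ 4 * s := by
    have h5 : V \ Z ⊆ {0, 2, 3} ∪ P.filter (fun p : ℕ => ¬ (p : ℤ) ∣ A) := by
      intro v hv
      rw [Finset.mem_sdiff] at hv
      rcases Finset.mem_insert.1 hv.1 with h | h
      · rw [h]; simp
      · rw [Finset.mem_union]
        by_cases h6 : (v : ℤ) ∣ A
        · left
          have h7 : ¬ 5 ≤ v := fun h8 => hv.2 (by rw [hZ, Finset.mem_filter]; exact ⟨h, h8, h6⟩)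
          have hpp := Nat.prime_of_mem_primeFactors h
          have := hpp.two_le
          have h4 : v ≠ 4 := by rintro rfl; exact absurd hpp (by norm_num)
          have : v = 2 ∨ v = 3 := by omega
          rcases this with h | h <;> rw [h] <;> simp
        · right
          rw [Finset.mem_filter]; exact ⟨h, h6⟩
    have h6 := (Finset.card_le_card h5).trans (Finset.card_union_le _ _)
    have h7 : ({0, 2, 3} : Finset ℕ).card = 3 := by decide
    rw [h7] at h6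
    have h8 : (P.filter (fun p : ℕ => ¬ (p : ℤ) ∣ A)).card = nmult A B := rfl
    rw [h8] at h6
    have h9 : ((V \ Z).card : ℝ) ≤ 3 + nmult A B := by exact_mod_cast h6
    have h10 : (0 : ℝ) ≤ nmult A B := Nat.cast_nonneg _
    rw [hs]; linarith
  have hρ : (1 / (16 * s)) * W ^ 2 ≤ ∑ v ∈ V, w v ^ 2 := by
    have h5 : (∑ v ∈ V \ Z, w v) ^ 2 ≤ (V \ Z).card * ∑ v ∈ V \ Z, w v ^ 2 := by
      exact sq_sum_le_card_mul_sum_sq
    have h6 : ∑ v ∈ V \ Z, w v ^ 2 ≤ ∑ v ∈ V, w v ^ 2 :=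
      Finset.sum_le_sum_of_subset_of_nonneg Finset.sdiff_subset (fun _ _ _ => sq_nonneg _)
    have h7 : (W / 2) ^ 2 ≤ (∑ v ∈ V \ Z, w v) ^ 2 := pow_le_pow_left₀ (by positivity) hU 2
    have h8 : 0 ≤ ∑ v ∈ V \ Z, w v ^ 2 := Finset.sum_nonneg (fun _ _ => sq_nonneg _)
    have h9 : W ^ 2 / 4 ≤ 4 * s * ∑ v ∈ V, w v ^ 2 := by
      calc W ^ 2 / 4 = (W / 2) ^ 2 := by ring
        _ ≤ (V \ Z).card * ∑ v ∈ V \ Z, w v ^ 2 := h7.trans h5
        _ ≤ (4 * s) * ∑ v ∈ V, w v ^ 2 := by gcongr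
    rw [div_mul_eq_mul_div, one_mul, div_le_iff₀ (by positivity)]
    linarith
  -- s ≤ 4 W
  have hsW : s ≤ 8 * W := by
    have h5 : (nmult A B : ℝ) ≤ P.card := by
      exact_mod_cast Finset.card_le_card (Finset.filter_subset _ _)
    have h6 : (P.card : ℝ) * Real.log 2 ≤
      ∑ p ∈ (4 * A ^ 3 + 27 * B ^ 2).natAbs.primeFactors, Real.log ((p : ℕ) : ℝ) := fin_card_le _
    have h7 := fin_rad_le _ hD
    have h8 := fin_log_le_HE A B hD
    have h9 : (P.card : ℝ) * (1 / 2) ≤ (P.card : ℝ) * Real.log 2 := by gcongr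
    rw [hs]
    linarith
  have h5 := hB hC₀ hM' (1 / (16 * s)) (by positivity) (by rw [← hP, ← hV, ← hW]; exact hρ)
    (by rw [← hP, ← hV, ← hW]; exact hWpos) (by
      rw [← hP, ← hV, ← hW]
      have h6 : (1 / (128 * W)) ^ (2 / 3 : ℝ) ≤ (1 / (16 * s)) ^ (2 / 3 : ℝ) := by
        apply Real.rpow_le_rpow (by positivity) _ (by norm_num)
        apply one_div_le_one_div_of_le (by positivity)
        linarith
      have h7 : (1 / (128 * W)) ^ (2 / 3 : ℝ) * W = (1 / 128 : ℝ) ^ (2 / 3 : ℝ) * W ^ (1 / 3 : ℝ) := by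
        rw [Real.div_rpow (by norm_num) (by positivity), Real.div_rpow (by norm_num) (by norm_num),
          Real.mul_rpow (by norm_num) hWpos.le]
        have h8 : W = W ^ (2 / 3 : ℝ) * W ^ (1 / 3 : ℝ) := by
          rw [← Real.rpow_add hWpos]; norm_num
        have h9 : (0 : ℝ) < W ^ (2 / 3 : ℝ) := by positivity
        have h10 : (0 : ℝ) < (128 : ℝ) ^ (2 / 3 : ℝ) := by positivity
        nth_rewrite 2 [h8]
        field_simp
      have h8 : (1 / 100 : ℝ) ≤ (1 / 128 : ℝ) ^ (2 / 3 : ℝ) := by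
        have h9 : (1 / 1000 : ℝ) ^ (2 / 3 : ℝ) ≤ (1 / 128 : ℝ) ^ (2 / 3 : ℝ) :=
          Real.rpow_le_rpow (by norm_num) (by norm_num) (by norm_num)
        have h10 : (1 / 1000 : ℝ) ^ (2 / 3 : ℝ) = 1 / 100 := by
          have : (1 / 1000 : ℝ) = (1 / 10) ^ (3 : ℝ) := by norm_num
          rw [this, ← Real.rpow_mul (by norm_num)]
          norm_num
        linarith
      have h9 : C₀ * 100 / cB ≤ W ^ (1 / 3 : ℝ) := by
        have h10 : (C₀ * 100 / cB) ^ 3 ≤ W := by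
          rw [← hX]; linarith
        have h11 := Real.rpow_le_rpow (by positivity) h10 (show (0 : ℝ) ≤ 1 / 3 by norm_num)
        rw [← Real.rpow_natCast, ← Real.rpow_mul (by positivity)] at h11
        norm_num at h11
        exact h11
      rw [div_le_iff₀ hcB] at h9
      have hW13 : 0 < W ^ (1 / 3 : ℝ) := by positivity
      calc C₀ = (C₀ * 100) * (1 / 100) := by ring
        _ ≤ (W ^ (1 / 3 : ℝ) * cB) * (1 / 128 : ℝ) ^ (2 / 3 : ℝ) := by gcongr
        _ = cB * ((1 / (128 * W)) ^ (2 / 3 : ℝ) * W) := by rw [h7]; ring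
        _ ≤ cB * ((1 / (16 * s)) ^ (2 / 3 : ℝ) * W) := by gcongr)
  rw [← hP, ← hV, ← hW] at h5
  have h6 : (1 / 20 : ℝ) ^ (8 / 3 : ℝ) * s ^ (-(8 / 3 : ℝ)) ≤ (1 / (16 * s)) ^ (8 / 3 : ℝ) := by
    have h7 : (1 / (16 * s)) ^ (8 / 3 : ℝ) = (1 / 16 : ℝ) ^ (8 / 3 : ℝ) * s ^ (-(8 / 3 : ℝ)) := by
      rw [Real.rpow_neg hs0.le, Real.div_rpow (by norm_num) (by positivity),
        Real.div_rpow (by norm_num) (by norm_num), Real.mul_rpow (by norm_num) hs0.le]
      field_simp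
    rw [h7]
    apply mul_le_mul_of_nonneg_right _ (by positivity)
    exact Real.rpow_le_rpow (by norm_num) (by norm_num) (by norm_num)
  calc mm * HE A B * s ^ (-(8 / 3 : ℝ))
      ≤ (cB * (1 / 20 : ℝ) ^ (8 / 3 : ℝ) / 2) * HE A B * s ^ (-(8 / 3 : ℝ)) := by gcongr
    _ = cB * ((1 / 20 : ℝ) ^ (8 / 3 : ℝ) * s ^ (-(8 / 3 : ℝ))) * (HE A B / 2) := by ring
    _ ≤ cB * (1 / (16 * s)) ^ (8 / 3 : ℝ) * W := by gcongr
    _ ≤ e := h5

end Pool.Agent.Helper42.LS
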