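import Pool.Agent.Helper42.LS.MTb

open Filter Topology

namespace Pool.Agent.Helper42.LS

lemma mt_dbl {A B : ℚ} {x y : ℕ → ℚ} (hg : GSeq (0 : ℚ) A B x y) (k : ℕ) (hk : 1 ≤ k) :
    cu A B (x k) ≠ 0 ∧ x (2 * k) = th A B (x k) / (4 * cu A B (x k)) := by
  have h1 := hg.curve k hk
  have h2 := hg.yne k hk
  have h3 : cu A B (x k) = y k ^ 2 := by unfold cu; rw [h1]; ring
  refine ⟨by rw [h3]; exact pow_ne_zero _ h2, ?_⟩
  rw [hg.dblx k hk, h3]
  unfold th
  have h4 : y k ^ 2 = x k ^ 3 + A * x k + B := by rw [h1]; ring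
  rw [div_pow, mul_pow, h4]
  have h5 : x k ^ 3 + A * x k + B ≠ 0 := by rw [← h4]; exact pow_ne_zero _ h2
  have h6 : (4 : ℚ) * (x k ^ 3 + A * x k + B) ≠ 0 := mul_ne_zero (by norm_num) h5
  rw [eq_div_iff h6, sub_zero, sub_mul, show (2 : ℚ) ^ 2 = 4 by norm_num, div_mul_cancel₀ _ h6]
  ring

lemma mt_hQ_ge (hHL : ST_HL) (q : ℚ) (T : Finset ℕ) (hT : ∀ p ∈ T, p.Prime) :
    Real.log (max |(q : ℝ)| 1) + ∑ p ∈ T, Real.log (max (nr p q) 1) ≤ hQ q := by
  have h1 := hHL q 1 one_ne_zero (T ∪ q.den.primeFactors) (by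
    intro p hp
    rcases Finset.mem_union.1 hp with h | h
    · exact hT p h
    · exact Nat.prime_of_mem_primeFactors h) (by
    intro p hp hpn
    have : Fact p.Prime := ⟨hp⟩
    have h2 : ¬ p ∣ q.den := by
      intro h
      apply hpn
      exact Finset.mem_union_right _ (Nat.mem_primeFactors.2 ⟨hp, h, q.den_nz⟩)
    have h3 : nr p q ≤ 1 := by
      have : q = (q.num : ℚ) / (q.den : ℚ) := (Rat.num_div_den q).symm
      rw [this, mt_nr_div]
      have h4 : nr p ((q.den : ℕ) : ℚ) = 1 := by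
        have := mt_nr_eq_one p (z := (q.den : ℤ)) (by exact_mod_cast h2)
        simpa using this
      rw [h4, div_one]; exact mt_nr_int p _
    have h4 : nr p 1 = 1 := by simp [nr]
    rw [h4]; exact max_eq_right h3)
  rw [div_one] at h1
  rw [h1]
  have h5 : ∀ p : ℕ, nr p 1 = 1 := fun p => by simp [nr]
  have h6 : max |(q : ℝ)| |((1 : ℚ) : ℝ)| = max |(q : ℝ)| 1 := by simp
  rw [h6]
  have h7 : ∑ p ∈ T, Real.log (max (nr p q) 1) ≤
      ∑ p ∈ T ∪ q.den.primeFactors, Real.log (max (nr p q) (nr p 1)) := by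
    simp only [h5]
    apply Finset.sum_le_sum_of_subset_of_nonneg Finset.subset_union_left
    intro p _ _
    exact Real.log_nonneg (le_max_right _ _)
  linarith

/-- sub-solution principle -/
lemma mt_sub {x : ℕ → ℚ} {e : ℝ} (he : IsCan x e) {V : ℕ → ℝ} {C C' : ℝ}
    (h1 : ∀ k : ℕ, 1 ≤ k → Even k → 4 * V k - C ≤ V (2 * k))
    (h2 : ∀ k : ℕ, 1 ≤ k → Even k → V k ≤ hQ (x k) + C') (k : ℕ) (hk : 1 ≤ k) (hek : Even k) :
    V k - C / 3 ≤ (k : ℝ) ^ 2 * e := by
  have h3 : ∀ n : ℕ, 4 ^ n * (V k - C / 3) ≤ V (k * 2 ^ n) - C / 3 := by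
    intro n
    induction n with
    | zero => simp
    | succ n ih =>
      have h4 := h1 (k * 2 ^ n) (Nat.mul_pos hk (by positivity)) (hek.mul_right _)
      have h5 : 2 * (k * 2 ^ n) = k * 2 ^ (n + 1) := by ring
      rw [h5] at h4
      have h6 : (4 : ℝ) ^ (n + 1) * (V k - C / 3) = 4 * (4 ^ n * (V k - C / 3)) := by ring
      rw [h6]
      linarith
  have h4 : ∀ n : ℕ, (V k - C / 3) - (C' - C / 3) / 4 ^ n ≤ hQ (x (k * 2 ^ n)) / 4 ^ n := by
    intro n
    have h5 := h2 (k * 2 ^ n) (Nat.mul_pos hk (by positivity)) (hek.mul_right _)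
    have h6 := h3 n
    have h7 : (0 : ℝ) < 4 ^ n := by positivity
    rw [le_div_iff₀ h7, sub_mul, div_mul_cancel₀ _ h7.ne']
    linarith
  have h5 : Tendsto (fun n : ℕ => (V k - C / 3) - (C' - C / 3) / 4 ^ n) atTop
      (𝓝 ((V k - C / 3) - 0)) := by
    apply Tendsto.sub tendsto_const_nhds
    have : Tendsto (fun n : ℕ => (C' - C / 3) * (1 / 4 : ℝ) ^ n) atTop (𝓝 ((C' - C / 3) * 0)) :=
      (tendsto_pow_atTop_nhds_zero_of_lt_one (by norm_num) (by norm_num)).const_mul _
    rw [mul_zero] at this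
    refine this.congr (fun n => ?_)
    rw [one_div, inv_pow]; rfl
  rw [sub_zero] at h5
  exact le_of_tendsto_of_tendsto' h5 (he k hk) h4

lemma mt_log_max_div {u v : ℝ} (hu : 0 ≤ u) (hv : 0 < v) :
    Real.log (max (u / v) 1) + Real.log v = Real.log (max u v) := by
  rw [← Real.log_mul (by positivity) hv.ne', max_mul_of_nonneg _ _ hv.le,
    div_mul_cancel₀ _ hv.ne', one_mul]

lemma mt_log_disc (D : ℤ) (hD : D ≠ 0) :
    Real.log |((D : ℤ) : ℝ)| =
      ∑ p ∈ D.natAbs.primeFactors, (padicValNat p D.natAbs : ℝ) * Real.log p := by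
  have h0 : D.natAbs ≠ 0 := by simpa using hD
  have h1 : (|((D : ℤ) : ℝ)|) = ((D.natAbs : ℕ) : ℝ) := by
    rw [Nat.cast_natAbs]; push_cast; rfl
  rw [h1]
  conv_lhs => rw [← Nat.prod_factorization_pow_eq_self h0]
  rw [Finsupp.prod, Nat.support_factorization]
  push_cast
  rw [Real.log_prod]
  · apply Finset.sum_congr rfl
    intro p hp
    rw [Real.log_pow, Nat.factorization_def _ (Nat.prime_of_mem_primeFactors hp)]
  · intro p hp
    have := (Nat.prime_of_mem_primeFactors hp).pos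
    positivity

theorem st_MT (hHL : ST_HL) (hGH : ST_GH) (hPM : ST_PM) (hPG : ST_PG) (hPS : ST_PS) (hAD : ST_AD)
    (hRX : ST_RX) : ST_MT := by
  obtain ⟨C₁, hC₁, hsmall⟩ := mt_small hPM hPS
  obtain ⟨Cr, hRX⟩ := hRX
  set C : ℝ := C₁ + |Cr| with hCdef
  have hCr : Cr ≤ |Cr| := le_abs_self _
  have hCr0 : 0 ≤ |Cr| := abs_nonneg _
  have hC0 : 0 ≤ C := by positivity
  have hC1C : C₁ ≤ C := by linarith
  refine ⟨10 * C + 20, by positivity, ?_⟩
  intro A B hD hq x y e hg he
  set D : ℤ := 4 * A ^ 3 + 27 * B ^ 2 with hDdef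
  have hDn : D.natAbs ≠ 0 := by simpa using hD
  have hDq : dsc (A : ℚ) (B : ℚ) ≠ 0 := by rw [mt_dsc]; exact_mod_cast hD
  have h2D : (2 * D).natAbs ≠ 0 := by simpa using hD
  -- local data
  have hloc : ∀ p ∈ (2 * D).natAbs.primeFactors, LocD C p A B x := by
    intro p hp
    have hpp := Nat.prime_of_mem_primeFactors hp
    by_cases h5 : 5 ≤ p
    · apply mt_big hPM hPG hAD C hC0 p hpp h5 A B hD (hq p hpp) _ x y hg
      have h1 : p ∣ (2 * D).natAbs := Nat.dvd_of_mem_primeFactors hp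
      rw [Int.natAbs_mul] at h1
      rcases (Nat.Prime.dvd_mul hpp).1 h1 with h | h
      · exfalso
        have := Nat.le_of_dvd (by norm_num) h
        norm_num at this
        omega
      · exact h
    · have h23 : p = 2 ∨ p = 3 := by
        have := hpp.two_le
        have h4 : p ≠ 4 := by rintro rfl; exact absurd hpp (by norm_num)
        omega
      exact hsmall C hC1C p hpp h23 A B hD (hq p hpp) x y hg
  have hloc' : ∀ p : ℕ, ∃ (w t : ℝ) (n : ℕ) (U : ℕ → ℝ), p ∈ (2 * D).natAbs.primeFactors →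
    (0 ≤ w ∧ 1 ≤ n ∧ (∃ a : ℤ, (n : ℝ) * t = a) ∧
    (w ≠ 0 → n * Real.log 2 ≤ w) ∧
    |w - padicValNat p (4 * A ^ 3 + 27 * B ^ 2).natAbs * Real.log p| ≤ C ∧
    (5 ≤ p → w = padicValNat p (4 * A ^ 3 + 27 * B ^ 2).natAbs * Real.log p ∧
      (p ∣ (4 * A ^ 3 + 27 * B ^ 2).natAbs → Real.log p ≤ w / n) ∧ ((p : ℤ) ∣ A → t = 0)) ∧
    (∀ k : ℕ, 1 ≤ k → 4 * U k - (if p < 5 then C else 0) ≤
      U (2 * k) + Real.log (nr p (4 * cu (A : ℚ) B (x k)))) ∧
    (∃ C' : ℝ, ∀ k : ℕ, 1 ≤ k → U k ≤ Real.log (max (nr p (x k)) 1) + C') ∧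
    (∀ k : ℕ, 1 ≤ k → w * B2 (k * t) -
      1 / 6 * (padicValNat p (4 * A ^ 3 + 27 * B ^ 2).natAbs * Real.log p) -
      (if p < 5 then C else 0) ≤ U (12 * k))) := by
    intro p
    by_cases hp : p ∈ (2 * D).natAbs.primeFactors
    · obtain ⟨w, t, n, U, h⟩ := hloc p hp
      exact ⟨w, t, n, U, fun _ => h⟩
    · exact ⟨0, 0, 1, fun _ => 0, fun h => absurd h hp⟩
  choose w t n U hU using hloc'
  set S := (2 * D).natAbs.primeFactors with hS
  choose Cu hCu using fun p (hp : p ∈ S) => (hU p hp).2.2.2.2.2.2.2.1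
  obtain ⟨Ui, τ, hUi1, ⟨Ci, hUi2⟩, hUi3⟩ := hRX (A : ℚ) (B : ℚ) hDq x y hg
  -- the potential
  set V : ℕ → ℝ := fun k => hQ (x k) + ∑ p ∈ S, (U p k - Real.log (max (nr p (x k)) 1)) +
    (Ui k - Real.log (max |(x k : ℝ)| 1)) with hV
  have hsumif : ∀ s : Finset ℕ, (∀ p ∈ s, p.Prime) →
      ∑ p ∈ s, (if p < 5 then C else 0) ≤ 2 * C := by
    intro s hs
    rw [← Finset.sum_filter, Finset.sum_const, nsmul_eq_mul]
    apply mul_le_mul_of_nonneg_right _ hC0
    have : s.filter (fun p => p < 5) ⊆ {2, 3} := by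
      intro p hp
      rw [Finset.mem_filter] at hp
      have hpp := hs p hp.1
      have := hpp.two_le
      have h4 : p ≠ 4 := by rintro rfl; exact absurd hpp (by norm_num)
      have : p = 2 ∨ p = 3 := by omega
      simpa using this
    have := Finset.card_le_card this
    have h2 : ({2, 3} : Finset ℕ).card = 2 := by decide
    rw [h2] at this
    exact_mod_cast this
  have hSp : ∀ p ∈ S, p.Prime := fun p hp => Nat.prime_of_mem_primeFactors hp
  have hV1 : ∀ k : ℕ, 1 ≤ k → Even k → 4 * V k - 3 * C ≤ V (2 * k) := by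
    intro k hk hek
    obtain ⟨hcu, hx2⟩ := mt_dbl hg k hk
    have hgh := hGH A B hD (x k) hcu
    rw [← hx2] at hgh
    have hcu4 : (4 * cu (A : ℚ) (B : ℚ) (x k)) ≠ 0 := mul_ne_zero (by norm_num) hcu
    -- local differences
    have hp1 : ∀ p ∈ S, 4 * U p k - (if p < 5 then C else 0) ≤ U p (2 * k) +
        (Real.log (max (nr p (th (A : ℚ) (B : ℚ) (x k))) (nr p (4 * cu (A : ℚ) (B : ℚ) (x k)))) -
        Real.log (max (nr p (x (2 * k))) 1)) := by
      intro p hp
      have : Fact p.Prime := ⟨hSp p hp⟩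
      have h1 := (hU p hp).2.2.2.2.2.2.1 k hk
      have h2 := mt_log_max_div (mt_nr_nonneg p (th (A : ℚ) (B : ℚ) (x k)))
        (mt_nr_pos p hcu4)
      rw [← mt_nr_div, ← hx2] at h2
      linarith
    have hp2 := hUi1 k hk hek
    have hp3 : Real.log (max |((x (2 * k) : ℚ) : ℝ)| 1) +
        Real.log |((4 * cu (A : ℚ) (B : ℚ) (x k) : ℚ) : ℝ)| =
        Real.log (max |((th (A : ℚ) (B : ℚ) (x k) : ℚ) : ℝ)|
          |((4 * cu (A : ℚ) (B : ℚ) (x k) : ℚ) : ℝ)|) := by
      rw [hx2, Rat.cast_div, abs_div]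
      apply mt_log_max_div (abs_nonneg _)
      rw [abs_pos]; exact_mod_cast hcu4
    have hp4 := Finset.sum_le_sum hp1
    have hp5 := hsumif S hSp
    rw [Finset.sum_sub_distrib] at hp4
    have e1 : ∑ p ∈ S, (U p (2 * k) +
        (Real.log (max (nr p (th (A : ℚ) (B : ℚ) (x k))) (nr p (4 * cu (A : ℚ) (B : ℚ) (x k)))) -
        Real.log (max (nr p (x (2 * k))) 1))) = ∑ p ∈ S, U p (2 * k) +
        ∑ p ∈ S, Real.log (max (nr p (th (A : ℚ) (B : ℚ) (x k)))
          (nr p (4 * cu (A : ℚ) (B : ℚ) (x k)))) -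
        ∑ p ∈ S, Real.log (max (nr p (x (2 * k))) 1) := by
      rw [Finset.sum_add_distrib, Finset.sum_sub_distrib]; ring
    rw [e1, ← Finset.mul_sum] at hp4
    rw [Finset.sum_sub_distrib, ← Finset.mul_sum] at hgh
    simp only [hV]
    rw [Finset.sum_sub_distrib, Finset.sum_sub_distrib]
    linarith
  have hV2 : ∃ C' : ℝ, ∀ k : ℕ, 1 ≤ k → Even k → V k ≤ hQ (x k) + C' := by
    refine ⟨(∑ p ∈ S.attach, Cu p.1 p.2) + Ci, ?_⟩
    intro k hk hek
    have h1 : ∑ p ∈ S, (U p k - Real.log (max (nr p (x k)) 1)) ≤ ∑ p ∈ S.attach, Cu p.1 p.2 := by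
      rw [← Finset.sum_attach S]
      apply Finset.sum_le_sum
      intro p _
      have := hCu p.1 p.2 k hk
      linarith
    have h2 := hUi2 k hk hek
    simp only [hV]
    linarith
  obtain ⟨C', hV2⟩ := hV2
  -- the weights
  set w' : ℕ → ℝ := fun v => if v = 0 then max 0 (Real.log |((6912 * (A : ℚ) ^ 3 / dsc (A : ℚ) B : ℚ) : ℝ)|)
    else w v with hw'
  set t' : ℕ → ℝ := fun v => if v = 0 then 12 * τ else t v with ht'
  have hSD : D.natAbs.primeFactors ⊆ S := by
    intro p hp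
    rw [Nat.mem_primeFactors] at hp
    rw [hS, Nat.mem_primeFactors]
    refine ⟨hp.1, ?_, h2D⟩
    rw [Int.natAbs_mul]
    exact Dvd.dvd.mul_left hp.2.1 _
  have hpne : ∀ p ∈ D.natAbs.primeFactors, p ≠ 0 := fun p hp =>
    (Nat.prime_of_mem_primeFactors hp).ne_zero
  refine ⟨w', t', n, ?_, ?_, ?_, ?_⟩
  · intro v hv
    rcases Finset.mem_insert.1 hv with h | h
    · simp only [hw', h, if_true]; exact le_max_left _ _
    · simp only [hw', hpne v h, if_false]
      exact (hU v (hSD h)).1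
  · intro p hp
    have h := hU p (hSD hp)
    simp only [hw', ht', hpne p hp, if_false]
    refine ⟨h.2.1, h.2.2.1, h.2.2.2.1, ?_, ?_⟩
    · have := h.2.2.2.2.1
      linarith
    · intro h5
      have h6 := h.2.2.2.2.2.1 h5
      exact ⟨h6.1, h6.2.1 (Nat.dvd_of_mem_primeFactors hp), h6.2.2⟩
  · -- weight of the real place
    simp only [hw', if_true]
    set a : ℝ := 4 * |(A : ℝ)| ^ 3 with ha
    set b : ℝ := 27 * (B : ℝ) ^ 2 with hb
    set d : ℝ := |((D : ℤ) : ℝ)| with hd
    have ha0 : 0 ≤ a := by positivity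
    have hb0 : 0 ≤ b := by positivity
    have hd0 : 0 < d := by rw [hd, abs_pos]; exact_mod_cast hD
    have hHE : HE A B = Real.log (max a b) := rfl
    have hdab : d ≤ a + b := by
      rw [hd, hDdef]; push_cast
      calc |4 * (A : ℝ) ^ 3 + 27 * (B : ℝ) ^ 2| ≤ |4 * (A : ℝ) ^ 3| + |27 * (B : ℝ) ^ 2| := abs_add_le _ _
        _ = a + b := by
          rw [abs_mul, abs_mul, abs_pow, abs_pow, ha, hb, sq_abs]
          norm_num
    have hbda : b ≤ d + a := by
      have h1 : (27 * (B : ℝ) ^ 2) = ((D : ℤ) : ℝ) - 4 * (A : ℝ) ^ 3 := by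
        rw [hDdef]; push_cast; ring
      have h2 : b = |27 * (B : ℝ) ^ 2| := by rw [hb, abs_of_nonneg (by positivity)]
      rw [h2, h1]
      calc |((D : ℤ) : ℝ) - 4 * (A : ℝ) ^ 3| ≤ |((D : ℤ) : ℝ)| + |4 * (A : ℝ) ^ 3| := abs_sub _ _
        _ = d + a := by rw [abs_mul, abs_pow, ha, hd]; norm_num
    have hj : |((6912 * (A : ℚ) ^ 3 / dsc (A : ℚ) B : ℚ) : ℝ)| = 1728 * a / d := by
      rw [mt_dsc]
      push_cast
      rw [abs_div, abs_mul, abs_pow, ha, hd, hDdef]
      push_cast
      have : |(6912 : ℝ)| = 6912 := by norm_num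
      rw [this]; ring
    rw [hj, hHE]
    have hmax0 : 0 < max a b := by
      by_contra hcon
      push Not at hcon
      have h1 := le_max_left a b
      have h2 := le_max_right a b
      linarith
    have hl2 : Real.log 2 ≤ 1 := by
      have := Real.log_two_lt_d9; linarith
    have hl1728 : Real.log 1728 ≤ 12 := by
      have : Real.log 1728 ≤ Real.log (2 ^ 11) := Real.log_le_log (by norm_num) (by norm_num)
      rw [Real.log_pow] at this
      push_cast at this
      linarith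
    have hl1729 : Real.log 1729 ≤ 12 := by
      have : Real.log 1729 ≤ Real.log (2 ^ 11) := Real.log_le_log (by norm_num) (by norm_num)
      rw [Real.log_pow] at this
      push_cast at this
      linarith
    have hl17280 : 0 ≤ Real.log 1728 := Real.log_nonneg (by norm_num)
    -- lower bound of the difference
    have hlow : -1 ≤ Real.log (max a b) - Real.log d := by
      have : d ≤ 2 * max a b := by
        have h1 := le_max_left a b
        have h2 := le_max_right a b
        linarith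
      have := Real.log_le_log hd0 this
      rw [Real.log_mul (by norm_num) hmax0.ne'] at this
      linarith
    rw [abs_le]
    by_cases hcase : 1728 * a / d ≤ 1
    · have h1 : Real.log (1728 * a / d) ≤ 0 := by
        apply Real.log_nonpos (by positivity) hcase
      rw [max_eq_left h1]
      have had : a ≤ d := by
        rw [div_le_one hd0] at hcase
        linarith
      have : max a b ≤ 2 * d := max_le (by linarith) (by linarith)
      have := Real.log_le_log hmax0 this
      rw [Real.log_mul (by norm_num) hd0.ne'] at this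
      constructor <;> linarith
    · push Not at hcase
      have h1 : 0 ≤ Real.log (1728 * a / d) := Real.log_nonneg hcase.le
      rw [max_eq_right h1]
      have hda : d < 1728 * a := by rwa [lt_div_iff₀ hd0, one_mul] at hcase
      have ha1 : 0 < a := by
        by_contra h
        push Not at h
        have : a = 0 := le_antisymm h ha0
        rw [this] at hda; linarith
      rw [Real.log_div (by positivity) hd0.ne', Real.log_mul (by norm_num) ha1.ne']
      have h2 : max a b ≤ 1729 * a := max_le (by linarith) (by linarith)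
      have h3 := Real.log_le_log hmax0 h2
      rw [Real.log_mul (by norm_num) ha1.ne'] at h3
      have h4 := Real.log_le_log ha1 (le_max_left a b)
      constructor <;> linarith
  · -- the inequality
    intro k hk
    have h12 : 1 ≤ 12 * k := by omega
    have he12 : Even (12 * k) := ⟨6 * k, by ring⟩
    have h1 := mt_sub he hV1 hV2 (12 * k) h12 he12
    have h2 := mt_hQ_ge hHL (x (12 * k)) S hSp
    have h3 : ∑ p ∈ S, U p (12 * k) + Ui (12 * k) ≤ V (12 * k) := by
      simp only [hV]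
      rw [Finset.sum_sub_distrib]
      linarith
    have h4 : ∑ p ∈ S, (w p * B2 (k * t p) -
      1 / 6 * (padicValNat p D.natAbs * Real.log p) - (if p < 5 then C else 0)) ≤
        ∑ p ∈ S, U p (12 * k) := by
      apply Finset.sum_le_sum
      intro p hp
      exact (hU p hp).2.2.2.2.2.2.2.2 k hk
    rw [Finset.sum_sub_distrib, Finset.sum_sub_distrib, ← Finset.mul_sum] at h4
    have h5 := hsumif S hSp
    have h6 : ∑ p ∈ S, (padicValNat p D.natAbs : ℝ) * Real.log p = Real.log |((D : ℤ) : ℝ)| := by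
      rw [mt_log_disc D hD]
      symm
      apply Finset.sum_subset hSD
      intro p hp hpn
      have : ¬ p ∣ D.natAbs := fun h => hpn (Nat.mem_primeFactors.2 ⟨hSp p hp, h, hDn⟩)
      rw [padicValNat.eq_zero_of_not_dvd this]; simp
    rw [h6] at h4
    have h7 := hUi3 (12 * k) h12 he12
    have h8 : (((12 * k : ℕ) : ℝ) * τ) = k * (12 * τ) := by push_cast; ring
    rw [h8] at h7
    have h9 : |((dsc (A : ℚ) B : ℚ) : ℝ)| = |((D : ℤ) : ℝ)| := by
      rw [mt_dsc, ← hDdef, Rat.cast_intCast]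
    rw [h9] at h7
    -- sums of weights
    have h10 : ∑ p ∈ D.natAbs.primeFactors, w p * B2 (k * t p) - 2 * C ≤
        ∑ p ∈ S, w p * B2 (k * t p) := by
      rw [← Finset.sum_sdiff hSD]
      have h11 : ∀ p ∈ S \ D.natAbs.primeFactors, -(if p < 5 then C else 0) ≤ w p * B2 (k * t p) := by
        intro p hp
        rw [Finset.mem_sdiff] at hp
        have hpp := hSp p hp.1
        have hnd : ¬ p ∣ D.natAbs := fun h => hp.2 (Nat.mem_primeFactors.2 ⟨hpp, h, hDn⟩)
        have h12 := hU p hp.1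
        have h13 := h12.2.2.2.2.1
        have h14 : padicValNat p (4 * A ^ 3 + 27 * B ^ 2).natAbs = 0 :=
          padicValNat.eq_zero_of_not_dvd hnd
        rw [h14] at h13
        have h15 : |w p| ≤ C := by simpa using h13
        have h16 : w p ≤ C := (abs_le.1 h15).2
        have h17 : 0 ≤ w p := h12.1
        have h18 := mt_B2_ge (k * t p)
        have h19 : p < 5 := by
          by_contra hcon
          push Not at hcon
          have h1 : p ∣ (2 * D).natAbs := Nat.dvd_of_mem_primeFactors hp.1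
          rw [Int.natAbs_mul] at h1
          rcases (Nat.Prime.dvd_mul hpp).1 h1 with h | h
          · have := Nat.le_of_dvd (by norm_num) h
            norm_num at this
            omega
          · exact hnd h
        rw [if_pos h19]
        nlinarith
      have h12 := Finset.sum_le_sum h11
      rw [Finset.sum_neg_distrib] at h12
      have h13 := hsumif (S \ D.natAbs.primeFactors) (fun p hp => hSp p (Finset.mem_sdiff.1 hp).1)
      linarith
    have h11 : ∑ v ∈ insert 0 D.natAbs.primeFactors, w' v * B2 (k * t' v) =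
        max 0 (Real.log |((6912 * (A : ℚ) ^ 3 / dsc (A : ℚ) B : ℚ) : ℝ)|) * B2 (k * (12 * τ)) +
        ∑ p ∈ D.natAbs.primeFactors, w p * B2 (k * t p) := by
      rw [Finset.sum_insert (by simp)]
      congr 1
      apply Finset.sum_congr rfl
      intro p hp
      simp only [hw', ht', hpne p hp, if_false]
    rw [h11]
    have h12' : (((12 * k : ℕ) : ℝ)) ^ 2 * e = 144 * (k : ℝ) ^ 2 * e := by push_cast; ring
    rw [h12'] at h1
    linarith

end Pool.Agent.Helper42.LS
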