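import Pool.Agent.Helper17.LS.CB
import Pool.Agent.Helper17.LS.PL
import Pool.Agent.Helper19.LS.PD
import Pool.Agent.Helper19.LS.PM
import Pool.Agent.Helper26.LS.RS
import Pool.Agent.Helper26.LS.RT
import Pool.Agent.Helper33.LS.CA
import Pool.Agent.Helper33.LS.GL
import Pool.Agent.Helper33.LS.PA
import Pool.Agent.Helper34.LS.CH
import Pool.Agent.Helper34.LS.NC
import Pool.Agent.Helper41.LS.HL
import Pool.Agent.Helper41.LS.RA
import Pool.Agent.Helper42.LS.FinC
import Pool.Agent.Helper42.LS.MT
import Pool.Agent.Helper50.LS.PI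
import Pool.Agent.Helper50.LS.RC
import Pool.Agent.Helper55.LS.R0
import Pool.Agent.Helper55.LS.RN
import Pool.Agent.Helper55.LS.RR
import Pool.Agent.Helper59.LS.AD
import Pool.Agent.Helper61.LS.RK
import Pool.Agent.Helper61.LS.RX
import Pool.Agent.Helper81.LS.CK
import Pool.Agent.Helper81.LS.FB
import Pool.Agent.Helper84.LS.PG
import Pool.Agent.Helper99.LS.GB
import Pool.Agent.Helper99.LS.GH

open Filter Topology

namespace Pool.Agent.Helper42.LS

theorem all_GH : ST_GH := st_GH st_HL

theorem all_GB : ST_GB := st_GB all_GH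

theorem all_PM : ST_PM := st_PM st_PA st_PD st_PI

theorem all_RS : ST_RS := st_RS (st_RT (st_RA st_RK)) st_RC st_RB2

theorem all_RX : ST_RX := st_RX all_RS st_RN st_R0 st_RR

/-- the master inequality -/
theorem all_MT : ST_MT := st_MT st_HL all_GH all_PM st_PG st_PS st_AD all_RX

theorem all_CA : ST_CA := st_CA st_F1

theorem all_CB : ST_CB := st_CB st_F1 st_F3 st_F4

theorem all_CK : ST_CK := st_CK st_F2

theorem all_CH : ST_CH := st_CH all_GB st_PL

theorem all_NC : ST_NC := st_NC all_CH

theorem all_R1 : ST_R1 := st_R1 all_MT all_NC all_CA all_CB all_CK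

theorem all_R2 : ST_R2 := st_R2 all_MT all_NC all_CA all_CK

theorem all_R3 : ST_R3 := st_R3 all_MT all_NC all_CB

theorem all_R4 : ST_R4 := st_R4 all_MT all_NC all_CA all_CB all_CK

end Pool.Agent.Helper42.LS
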