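import Mathlib

namespace Pool.Agent.Helper42.LS

/-- logarithmic height of a rational number -/
noncomputable def hQ (q : ℚ) : ℝ := Real.log ((max q.num.natAbs q.den : ℕ) : ℝ)

/-- the curve `y ^ 2 = x ^ 3 + A x + B` over `ℚ` -/
def EC (A B : ℤ) : WeierstrassCurve ℚ := ⟨0, 0, 0, (A : ℚ), (B : ℚ)⟩

/-- logarithmic height of the `x`-coordinate of a point, `0` at the origin -/
noncomputable def hx {A B : ℤ} : (EC A B).toAffine.Point → ℝ
  | .zero => 0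
  | .some x _ _ => hQ x

/-- quasi-minimal pairs: no prime `p` has `p ^ 4 ∣ A` and `p ^ 6 ∣ B` -/
def QM (A B : ℤ) : Prop := ∀ p : ℕ, p.Prime → ¬ ((p : ℤ) ^ 4 ∣ A ∧ (p : ℤ) ^ 6 ∣ B)

/-- size of the curve: `log max (4 |A| ^ 3, 27 B ^ 2)` -/
noncomputable def HE (A B : ℤ) : ℝ := Real.log (max (4 * |(A : ℝ)| ^ 3) (27 * (B : ℝ) ^ 2))

/-- number of primes that divide `4 A ^ 3 + 27 B ^ 2` and do not divide `A` -/
def nmult (A B : ℤ) : ℕ :=
  ((4 * A ^ 3 + 27 * B ^ 2).natAbs.primeFactors.filter (fun p : ℕ => ¬ (p : ℤ) ∣ A)).card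

end Pool.Agent.Helper42.LS
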