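import Pool.Agent.Helper42.LS.Basic

open Filter Topology

namespace Pool.Agent.Helper42.LS

/-- periodic second Bernoulli function -/
noncomputable def B2 (t : ℝ) : ℝ := (Int.fract t) ^ 2 - Int.fract t + 1 / 6

/-- real valued p-adic norm of a rational -/
noncomputable def nr (p : ℕ) (q : ℚ) : ℝ := ((padicNorm p q : ℚ) : ℝ)

/-- Coordinates of the multiples `k P` (`k ≥ 1`) of a point of infinite order on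
`Y ^ 2 = X ^ 3 + a X ^ 2 + b X + c` over a field. -/
structure GSeq {F : Type} [Field F] (a b c : F) (X Y : ℕ → F) : Prop where
  curve : ∀ k : ℕ, 1 ≤ k → Y k ^ 2 = X k ^ 3 + a * X k ^ 2 + b * X k + c
  yne : ∀ k : ℕ, 1 ≤ k → Y k ≠ 0
  xne : ∀ k l : ℕ, 1 ≤ l → l < k → X k ≠ X l
  dblx : ∀ k : ℕ, 1 ≤ k → X (2 * k) = ((3 * X k ^ 2 + 2 * a * X k + b) / (2 * Y k)) ^ 2 - a - 2 * X k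
  dbly : ∀ k : ℕ, 1 ≤ k → Y (2 * k) =
    -((3 * X k ^ 2 + 2 * a * X k + b) / (2 * Y k) * (X (2 * k) - X k) + Y k)
  addx : ∀ k l : ℕ, 1 ≤ l → l < k → X (k + l) = ((Y k - Y l) / (X k - X l)) ^ 2 - a - X k - X l
  addy : ∀ k l : ℕ, 1 ≤ l → l < k → Y (k + l) = -((Y k - Y l) / (X k - X l) * (X (k + l) - X k) + Y k)
  subx : ∀ k l : ℕ, 1 ≤ l → l < k → X (k - l) = ((Y k + Y l) / (X k - X l)) ^ 2 - a - X k - X l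
  suby : ∀ k l : ℕ, 1 ≤ l → l < k → Y (k - l) = -((Y k + Y l) / (X k - X l) * (X (k - l) - X k) + Y k)

/-- `e` is the limit of `h (x (2 ^ n * k P)) / 4 ^ n`, scaled correctly for every `k ≥ 1` -/
def IsCan (x : ℕ → ℚ) (e : ℝ) : Prop :=
  ∀ k : ℕ, 1 ≤ k → Tendsto (fun n : ℕ => hQ (x (k * 2 ^ n)) / 4 ^ n) atTop (𝓝 ((k : ℝ) ^ 2 * e))

/-- the discriminant of `x ^ 3 + A x + B` up to sign -/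
def dsc {F : Type} [Field F] (A B : F) : F := 4 * A ^ 3 + 27 * B ^ 2

/-- numerator of the duplication formula -/
def th {F : Type} [Field F] (A B x : F) : F := x ^ 4 - 2 * A * x ^ 2 - 8 * B * x + A ^ 2

/-- the cubic -/
def cu {F : Type} [Field F] (A B x : F) : F := x ^ 3 + A * x + B

/-! ### GL : group law -/

/-- GL -/
def ST_GL : Prop := ∀ A B : ℤ, 4 * A ^ 3 + 27 * B ^ 2 ≠ 0 → ∀ P : (EC A B).toAffine.Point,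
  (∀ n : ℕ, 0 < n → n • P ≠ 0) → ∃ x y : ℕ → ℚ, GSeq (0 : ℚ) (A : ℚ) (B : ℚ) x y ∧
    ∀ k : ℕ, 1 ≤ k → ∃ h, k • P = WeierstrassCurve.Affine.Point.some (x k) (y k) h

/-! ### heights -/

/-- HL : height of a quotient as a sum of local terms -/
def ST_HL : Prop := ∀ (u v : ℚ), v ≠ 0 → ∀ T : Finset ℕ, (∀ p ∈ T, p.Prime) →
  (∀ p : ℕ, p.Prime → p ∉ T → max (nr p u) (nr p v) = 1) →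
  hQ (u / v) = Real.log (max |(u : ℝ)| |(v : ℝ)|) + ∑ p ∈ T, Real.log (max (nr p u) (nr p v))

/-- GH : exact duplication formula for the height -/
def ST_GH : Prop := ∀ A B : ℤ, 4 * A ^ 3 + 27 * B ^ 2 ≠ 0 → ∀ x : ℚ,
  cu (A : ℚ) (B : ℚ) x ≠ 0 →
  hQ (th (A : ℚ) (B : ℚ) x / (4 * cu (A : ℚ) (B : ℚ) x)) = 4 * hQ x
    + (Real.log (max |((th (A : ℚ) (B : ℚ) x : ℚ) : ℝ)| |((4 * cu (A : ℚ) (B : ℚ) x : ℚ) : ℝ)|)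
        - 4 * Real.log (max |(x : ℝ)| 1))
    + ∑ p ∈ (2 * (4 * A ^ 3 + 27 * B ^ 2)).natAbs.primeFactors,
        (Real.log (max (nr p (th (A : ℚ) (B : ℚ) x)) (nr p (4 * cu (A : ℚ) (B : ℚ) x)))
          - 4 * Real.log (max (nr p x) 1))

/-- GB : two sided bound for the height of the double -/
def ST_GB : Prop := ∀ A B : ℤ, 4 * A ^ 3 + 27 * B ^ 2 ≠ 0 → ∃ C : ℝ, ∀ x : ℚ,
  cu (A : ℚ) (B : ℚ) x ≠ 0 →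
  |hQ (th (A : ℚ) (B : ℚ) x / (4 * cu (A : ℚ) (B : ℚ) x)) - 4 * hQ x| ≤ C

/-- PL : upper half of the parallelogram law -/
def ST_PL : Prop := ∀ A B : ℤ, 4 * A ^ 3 + 27 * B ^ 2 ≠ 0 → ∃ C : ℝ, ∀ x y : ℕ → ℚ,
  GSeq (0 : ℚ) (A : ℚ) (B : ℚ) x y → ∀ k l : ℕ, 1 ≤ l → l < k →
    hQ (x (k + l)) + hQ (x (k - l)) ≤ 2 * hQ (x k) + 2 * hQ (x l) + C

/-- CH : canonical height -/
def ST_CH : Prop := ∀ A B : ℤ, 4 * A ^ 3 + 27 * B ^ 2 ≠ 0 → ∃ C : ℝ, ∀ x y : ℕ → ℚ,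
  GSeq (0 : ℚ) (A : ℚ) (B : ℚ) x y → ∃ e : ℝ, IsCan x e ∧ |e - hQ (x 1)| ≤ C

/-- NC : positive lower bound on a fixed curve (Northcott) -/
def ST_NC : Prop := ∀ A B : ℤ, 4 * A ^ 3 + 27 * B ^ 2 ≠ 0 → ∃ c : ℝ, 0 < c ∧
  ∀ (x y : ℕ → ℚ) (e : ℝ), GSeq (0 : ℚ) (A : ℚ) (B : ℚ) x y → IsCan x e → c ≤ e

/-! ### p-adic places, multiplicative, normalised -/

/-- component function -/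
noncomputable def alp (p N : ℕ) (X : ℚ) : ℝ :=
  if X = 0 then (N : ℝ) / 2 else max 0 (min (padicValRat p X : ℝ) ((N : ℝ) / 2))

/-- normalised potential -/
noncomputable def up (p N : ℕ) (X : ℚ) : ℝ :=
  Real.log (max (nr p X) 1) - alp p N X * (N - alp p N X) / N * Real.log p

/-- PA : folded addition law, `X3, X4` are the `X`-coordinates of `P + Q`, `P - Q` -/
def ST_PA : Prop := ∀ (p N : ℕ), p.Prime → 1 ≤ N → ∀ c d e : ℚ, nr p (4 * c) = 1 →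
  nr p d ≤ (p : ℝ) ^ (-(N : ℤ)) → nr p e = (p : ℝ) ^ (-(N : ℤ)) → ∀ X1 X2 X3 X4 : ℚ, X1 ≠ X2 →
  (X3 + X4) * (X1 - X2) ^ 2 = 2 * ((X1 + X2) * (d + X1 * X2) + 2 * c * X1 * X2 + 2 * e) →
  X3 * X4 * (X1 - X2) ^ 2 = (X1 * X2 - d) ^ 2 - 4 * e * (X1 + X2 + c) →
  (0 < alp p N X1 ∨ 0 < alp p N X2) →
  (alp p N X3 = |alp p N X1 - alp p N X2| ∧
      alp p N X4 = min (alp p N X1 + alp p N X2) (N - (alp p N X1 + alp p N X2))) ∨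
  (alp p N X4 = |alp p N X1 - alp p N X2| ∧
      alp p N X3 = min (alp p N X1 + alp p N X2) (N - (alp p N X1 + alp p N X2)))

/-- PD : folded duplication law and the equation for the potential -/
def ST_PD : Prop := ∀ (p N : ℕ), p.Prime → 1 ≤ N → ∀ c d e : ℚ, nr p (4 * c) = 1 →
  nr p d ≤ (p : ℝ) ^ (-(N : ℤ)) → nr p e = (p : ℝ) ^ (-(N : ℤ)) → ∀ X X' : ℚ,
  X ^ 3 + c * X ^ 2 + d * X + e ≠ 0 →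
  X' * (4 * (X ^ 3 + c * X ^ 2 + d * X + e)) = (X ^ 2 - d) ^ 2 - 4 * e * (2 * X + c) →
  alp p N X' = min (2 * alp p N X) (N - 2 * alp p N X) ∧
  4 * up p N X = up p N X' + Real.log (nr p (4 * (X ^ 3 + c * X ^ 2 + d * X + e)))

/-- distance to the nearest integer -/
noncomputable def nd (t : ℝ) : ℝ := min (Int.fract t) (1 - Int.fract t)

/-- PI : induction -/
def ST_PI : Prop := ∀ (N : ℕ), 1 ≤ N → ∀ f : ℕ → ℝ, (∀ k : ℕ, 1 ≤ k → 0 ≤ f k ∧ f k ≤ (N : ℝ) / 2) →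
  f 2 = min (2 * f 1) (N - 2 * f 1) →
  (∀ k : ℕ, 2 ≤ k → (f (k - 1) = |f k - f 1| ∧ f (k + 1) = min (f k + f 1) (N - (f k + f 1))) ∨
    (f (k + 1) = |f k - f 1| ∧ f (k - 1) = min (f k + f 1) (N - (f k + f 1)))) →
  ∀ k : ℕ, 1 ≤ k → f k = N * nd (k * (f 1 / N))

/-- PM : multiplicative place -/
def ST_PM : Prop := ∀ (p N : ℕ), p.Prime → 1 ≤ N → ∀ A B : ℚ, dsc A B ≠ 0 →
  padicValRat p (6912 * A ^ 3 / dsc A B) = -(N : ℤ) → ∀ x y : ℕ → ℚ, GSeq (0 : ℚ) A B x y →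
  ∃ (r a : ℤ) (U : ℕ → ℝ),
    padicValRat p (16 * dsc A B) = N + 6 * r ∧
    (r = padicValRat p (18 * B / A)) ∧
    (∀ k : ℕ, 1 ≤ k → 4 * U k ≤ U (2 * k) + Real.log (nr p (4 * cu A B (x k)))) ∧
    (∃ C : ℝ, ∀ k : ℕ, 1 ≤ k → U k ≤ Real.log (max (nr p (x k)) 1) + C) ∧
    (∀ k : ℕ, 1 ≤ k → N * Real.log p * (B2 (k * (a / (2 * N))) - 1 / 6) - r * Real.log p ≤ U k) ∧
    (5 ≤ p → nr p A < 1 → ∀ k : ℕ, 1 ≤ k → 1 ≤ nr p (x k) → 0 ≤ U k)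

/-! ### p-adic places, potentially good -/

/-- PG : p ≥ 5, potentially good reduction -/
def ST_PG : Prop := ∀ p : ℕ, p.Prime → 5 ≤ p → ∀ A B : ℚ, dsc A B ≠ 0 →
  nr p (6912 * A ^ 3) ≤ nr p (dsc A B) → ∀ x y : ℕ → ℚ, GSeq (0 : ℚ) A B x y →
  ∃ U : ℕ → ℝ, (∀ k : ℕ, 1 ≤ k → 4 * U k ≤ U (2 * k) + Real.log (nr p (4 * cu A B (x k)))) ∧
    (∃ C : ℝ, ∀ k : ℕ, 1 ≤ k → U k ≤ Real.log (max (nr p (x k)) 1) + C) ∧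
    (∀ k : ℕ, 1 ≤ k → 1 / 6 * Real.log (nr p (dsc A B)) ≤ U k) ∧
    (∀ k : ℕ, 1 ≤ k → 1 ≤ nr p (x k) → 0 ≤ U k)

/-- PS : p = 2, 3, potentially good reduction -/
def ST_PS : Prop := ∃ C₀ : ℝ, ∀ p : ℕ, (p = 2 ∨ p = 3) → ∀ A B : ℚ, dsc A B ≠ 0 →
  nr p (6912 * A ^ 3) ≤ nr p (dsc A B) → ∀ x y : ℕ → ℚ, GSeq (0 : ℚ) A B x y →
  ∃ U : ℕ → ℝ, (∀ k : ℕ, 1 ≤ k → 4 * U k - C₀ ≤ U (2 * k) + Real.log (nr p (4 * cu A B (x k)))) ∧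
    (∃ C : ℝ, ∀ k : ℕ, 1 ≤ k → U k ≤ Real.log (max (nr p (x k)) 1) + C) ∧
    (∀ k : ℕ, 1 ≤ k → 1 / 6 * Real.log (nr p (dsc A B)) ≤ U k)

/-- AD : additive places p ≥ 5 of a quasi-minimal curve, `12 P` has non-singular reduction -/
def ST_AD : Prop := ∀ p : ℕ, p.Prime → 5 ≤ p → ∀ A B : ℤ, 4 * A ^ 3 + 27 * B ^ 2 ≠ 0 →
  ¬ ((p : ℤ) ^ 4 ∣ A ∧ (p : ℤ) ^ 6 ∣ B) → (p : ℤ) ∣ A → (p : ℤ) ∣ B → ∀ x y : ℕ → ℚ,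
  GSeq (0 : ℚ) (A : ℚ) (B : ℚ) x y → ∀ k : ℕ, 1 ≤ k → 1 ≤ nr p (x (12 * k))

/-! ### the real place -/

/-- RC : stability of approximate homomorphisms `ℕ → ℝ / W ℤ` -/
def ST_RC : Prop := ∀ (W C : ℝ), 0 < W → 0 ≤ C → ∀ T : ℕ → ℝ, (∀ k : ℕ, 1 ≤ k → |T k| ≤ W) →
  (∀ k l : ℕ, 1 ≤ k → 1 ≤ l → ∃ m : ℤ, |T (k + l) - T k - T l - m * W| ≤ C) →
  ∃ τ : ℝ, ∀ k : ℕ, 1 ≤ k → ∃ m : ℤ, |T k - k * τ - m * W| ≤ 8 * C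

/-- RB2 : Lipschitz property -/
def ST_RB2 : Prop := ∀ s t : ℝ, ∀ m : ℤ, |B2 s - B2 t| ≤ |s - t - m|

/-- size of the point `(Z, Y)` (distance to the node) -/
noncomputable def Msz (Z Y : ℝ) : ℝ := max (|Z - 1| / √Z) (|Y| / Z)

/-- logarithmic distance, oriented -/
noncomputable def Tor (Z Y : ℝ) : ℝ :=
  if 0 ≤ (Z - 1) * Y then max 0 (-Real.log (Msz Z Y)) else -(max 0 (-Real.log (Msz Z Y)))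

/-- RK : core inequality (pure real analysis) -/
def ST_RK : Prop := ∃ C₀ : ℝ, ∀ K θ φ M₁ M₂ m₁ m₂ c₁ c₂ M₃ : ℝ, 0 < K → K ≤ 1 / 10 →
  3 ≤ θ → θ ≤ 4 → 4 ≤ φ → φ ≤ 5 → 0 ≤ m₁ → 0 ≤ m₂ → M₁ ^ 2 = m₁ ^ 2 + K ^ 2 →
  M₂ ^ 2 = m₂ ^ 2 + K ^ 2 → 0 < M₁ → 0 < M₂ → 2 ≤ c₁ → c₁ ≤ 2 + M₁ → M₁ ≤ c₁ + 1 → 2 ≤ c₂ →
  c₂ ≤ 2 + M₂ → M₂ ≤ c₂ + 1 → 0 < M₁ * m₂ * c₂ + M₂ * m₁ * c₁ →
  M₃ * (M₁ * m₂ * c₂ + M₂ * m₁ * c₁) = M₁ ^ 2 * M₂ ^ 2 + θ * K ^ 2 →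
  ∀ s : ℝ, (s = 1 ∨ s = -1) → (m₁ ^ 2 * m₂ ^ 2 < φ * K ^ 2 → s = -1) →
  (φ * K ^ 2 < m₁ ^ 2 * m₂ ^ 2 → s = 1) →
  ∃ m : ℤ, |s * max 0 (-Real.log M₃) - max 0 (-Real.log M₁) - max 0 (-Real.log M₂)
    - m * (-2 * Real.log K)| ≤ C₀

/-- RA : approximate addition law for two positive points (sum) -/
def ST_RA : Prop := ∃ C₀ : ℝ, ∀ κ : ℝ, κ ≠ 0 → |κ| ≤ 1 / 100 → ∀ Z₁ Y₁ Z₂ Y₂ Z₃ Y₃ l : ℝ,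
  0 < Z₁ → 0 < Z₂ → 0 < Z₃ → (0 < κ → 1 < Z₁ ∧ 1 < Z₂ ∧ 1 < Z₃) →
  Y₁ ≠ 0 → Y₂ ≠ 0 → Y₃ ≠ 0 →
  Y₁ ^ 2 = Z₁ ^ 3 - (2 + κ) * Z₁ ^ 2 + Z₁ → Y₂ ^ 2 = Z₂ ^ 3 - (2 + κ) * Z₂ ^ 2 + Z₂ →
  ((Z₁ ≠ Z₂ ∧ l * (Z₁ - Z₂) = Y₁ - Y₂) ∨
    (Z₁ = Z₂ ∧ Y₁ = Y₂ ∧ l * (2 * Y₁) = 3 * Z₁ ^ 2 - 2 * (2 + κ) * Z₁ + 1)) →
  Z₃ = l ^ 2 + (2 + κ) - Z₁ - Z₂ → Y₃ = -(l * (Z₃ - Z₁) + Y₁) →
  0 ≤ (Z₁ - 1) * Y₁ → 0 ≤ (Z₂ - 1) * Y₂ →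
  ∃ m : ℤ, |Tor Z₃ Y₃ - Tor Z₁ Y₁ - Tor Z₂ Y₂ - m * (-Real.log |κ|)| ≤ C₀

/-- RT : approximate homomorphism for a sequence -/
def ST_RT : Prop := ∃ C₀ : ℝ, ∀ κ : ℝ, κ ≠ 0 → |κ| ≤ 1 / 100 → ∀ Z Y : ℕ → ℝ,
  GSeq (-(2 + κ)) 1 0 Z Y → (∀ k : ℕ, 1 ≤ k → 0 < Z k) → (0 < κ → ∀ k : ℕ, 1 ≤ k → 1 < Z k) →
  ∀ k l : ℕ, 1 ≤ k → 1 ≤ l →
  ∃ m : ℤ, |Tor (Z (k + l)) (Y (k + l)) - Tor (Z k) (Y k) - Tor (Z l) (Y l)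
    - m * (-Real.log |κ|)| ≤ C₀

/-- RS : split node, normalised -/
def ST_RS : Prop := ∃ C₀ : ℝ, ∀ κ : ℝ, κ ≠ 0 → |κ| ≤ 1 / 100 → ∀ Z Y : ℕ → ℝ,
  GSeq (-(2 + κ)) 1 0 Z Y → (∀ k : ℕ, 1 ≤ k → 0 < Z k) → (0 < κ → ∀ k : ℕ, 1 ≤ k → 1 < Z k) →
  ∃ (U : ℕ → ℝ) (τ : ℝ), (∀ k : ℕ, 1 ≤ k → 4 * U k - C₀ ≤ U (2 * k) + Real.log (4 * Y k ^ 2)) ∧
    (∀ k : ℕ, 1 ≤ k → U k ≤ Real.log (max (Z k) 1)) ∧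
    (∀ k : ℕ, 1 ≤ k → (-Real.log |κ|) * (B2 (k * τ) - 1 / 6) - C₀ ≤ U k)

/-- RN : non-split node, normalised -/
def ST_RN : Prop := ∃ C₀ : ℝ, ∀ κ : ℝ, |κ| ≤ 1 / 100 → ∀ Z Y : ℕ → ℝ,
  GSeq (2 + κ) 1 0 Z Y → (∀ k : ℕ, 1 ≤ k → 0 < Z k) →
  ∃ U : ℕ → ℝ, (∀ k : ℕ, 1 ≤ k → 4 * U k - C₀ ≤ U (2 * k) + Real.log (4 * Y k ^ 2)) ∧
    (∀ k : ℕ, 1 ≤ k → U k ≤ Real.log (max (Z k) 1)) ∧ (∀ k : ℕ, 1 ≤ k → -C₀ ≤ U k)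

/-- R0 : real place, bounded j -/
def ST_R0 : Prop := ∀ J₀ : ℝ, ∃ C₀ : ℝ, ∀ A B : ℝ, dsc A B ≠ 0 → |6912 * A ^ 3| ≤ J₀ * |dsc A B| →
  ∀ X Y : ℕ → ℝ, GSeq (0 : ℝ) A B X Y →
  ∃ U : ℕ → ℝ, (∀ k : ℕ, 1 ≤ k → 4 * U k - C₀ ≤ U (2 * k) + Real.log (4 * Y k ^ 2)) ∧
    (∃ C : ℝ, ∀ k : ℕ, 1 ≤ k → U k ≤ Real.log (max |X k| 1) + C) ∧
    (∀ k : ℕ, 1 ≤ k → 1 / 6 * Real.log |dsc A B| - C₀ ≤ U k)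

/-- RR : the far real root -/
def ST_RR : Prop := ∃ J₀ : ℝ, 1 ≤ J₀ ∧ ∀ A B : ℝ, dsc A B ≠ 0 → J₀ * |dsc A B| < |6912 * A ^ 3| →
  ∃ e μ κ : ℝ, 0 < μ ∧ e ^ 3 + A * e + B = 0 ∧ μ ^ 2 = 3 * e ^ 2 + A ∧ |κ| ≤ 1 / 100 ∧ κ ≠ 0 ∧
    3 * |e| = (2 + κ) * μ ∧ dsc A B = -(κ * (4 + κ)) * μ ^ 6 ∧
    (e < 0 → ∀ X : ℝ, 0 < X ^ 3 + A * X + B → e < X)

/-- RX : the real place, final form -/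
def ST_RX : Prop := ∃ C₀ : ℝ, ∀ A B : ℚ, dsc A B ≠ 0 → ∀ x y : ℕ → ℚ, GSeq (0 : ℚ) A B x y →
  ∃ (U : ℕ → ℝ) (τ : ℝ),
    (∀ k : ℕ, 1 ≤ k → Even k → 4 * U k - C₀ ≤ U (2 * k) + Real.log |((4 * cu A B (x k) : ℚ) : ℝ)|) ∧
    (∃ C : ℝ, ∀ k : ℕ, 1 ≤ k → Even k → U k ≤ Real.log (max |(x k : ℝ)| 1) + C) ∧
    (∀ k : ℕ, 1 ≤ k → Even k → 1 / 6 * Real.log |((dsc A B : ℚ) : ℝ)|
      + max 0 (Real.log |((6912 * A ^ 3 / dsc A B : ℚ) : ℝ)|) * B2 (k * τ) - C₀ ≤ U k)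

/-! ### combinatorial part -/

/-- FB : Fourier expansion -/
def ST_FB : Prop := ∀ t : ℝ, HasSum (fun n : ℕ => Real.cos (2 * Real.pi * (n + 1) * t) / (n + 1) ^ 2)
  (Real.pi ^ 2 * B2 t)

/-- F1 : Fejer positivity -/
def ST_F1 : Prop := ∀ (K : ℕ) (t : ℝ), 1 ≤ K →
  0 ≤ 1 / 6 + 2 * ∑ k ∈ Finset.Ico 1 K, (1 - (k : ℝ) / K) * B2 (k * t)

/-- F2 : shifted Fejer -/
def ST_F2 : Prop := ∀ (K : ℕ) (s t : ℝ), 1 ≤ K →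
  0 ≤ 1 / 3 + 2 * ∑ k ∈ Finset.Ico 1 K, (1 - (k : ℝ) / K) * (1 + Real.cos (2 * Real.pi * k * s)) *
    B2 (k * t) ∧
  (K : ℝ) / (2 * Real.pi ^ 2) ≤ 1 / 3 + 2 * ∑ k ∈ Finset.Ico 1 K, (1 - (k : ℝ) / K) *
    (1 + Real.cos (2 * Real.pi * k * t)) * B2 (k * t)

/-- F3 : products -/
def ST_F3 : Prop := ∀ (K : ℕ) (s t : ℝ), 1 ≤ K →
  0 ≤ 1 / 36 + 2 * ∑ k ∈ Finset.Ico 1 K, (1 - (k : ℝ) / K) * (B2 (k * s) * B2 (k * t)) ∧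
  (K : ℝ) / (2 * Real.pi ^ 4) ≤ 1 / 36 + 2 * ∑ k ∈ Finset.Ico 1 K, (1 - (k : ℝ) / K) *
    (B2 (k * t) * B2 (k * t))

/-- F4 : kernel inequality -/
def ST_F4 : Prop := ∀ (K : ℕ) (b : ℕ → ℝ) (t : ℝ),
  12 * (∑ k ∈ Finset.Ico 1 K, b k * B2 (k * t)) ^ 2 ≤
    ∑ k ∈ Finset.Ico 1 K, ∑ l ∈ Finset.Ico 1 K, b k * b l *
      (B2 (((k : ℝ) - l) * t) + B2 (((k : ℝ) + l) * t))

/-- CA : Szpiro-ratio lemma -/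
def ST_CA : Prop := ∃ c : ℝ, 0 < c ∧ ∀ (V V' : Finset ℕ) (w t : ℕ → ℝ) (n : ℕ → ℕ) (H R : ℝ),
  V' ⊆ V → (∀ v ∈ V, 0 ≤ w v) → (∀ v ∈ V', 1 ≤ n v ∧ ∃ a : ℤ, (n v : ℝ) * t v = a) →
  H = ∑ v ∈ V, w v → 0 < R → R ≤ ∑ v ∈ V', w v / n v →
  ∃ k : ℕ, 1 ≤ k ∧ c * k ≤ (H / R) ^ 2 ∧ c * R ≤ ∑ v ∈ V, w v * B2 (k * t v)

/-- CB : second moment lemma -/
def ST_CB : Prop := ∀ (V : Finset ℕ) (w t : ℕ → ℝ) (ρ : ℝ) (K : ℕ), (∀ v ∈ V, 0 ≤ w v) →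
  ∑ v ∈ V, w v = 1 → ρ = ∑ v ∈ V, w v ^ 2 → 22 ≤ ρ * K →
  ∃ k : ℕ, 1 ≤ k ∧ k ≤ 2 * K ∧ (K : ℝ) ^ (-(2 / 3 : ℝ)) / 8 ≤ ∑ v ∈ V, w v * B2 (k * t v)

/-- CK : one dominating place -/
def ST_CK : Prop := ∀ (V : Finset ℕ) (w t : ℕ → ℝ) (κ : ℝ) (v₀ : ℕ), (∀ v ∈ V, 0 ≤ w v) →
  v₀ ∈ V → 0 < κ → κ ≤ 1 → κ * (∑ v ∈ V, w v) ≤ w v₀ →
  ∃ k : ℕ, 1 ≤ k ∧ κ * k ≤ 15 ∧ κ / 80 * (∑ v ∈ V, w v) ≤ ∑ v ∈ V, w v * B2 (k * t v)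

/-! ### master inequality -/

/-- MT : master inequality.  Index `0` is the real place, the other indices are the primes
dividing the discriminant. -/
def ST_MT : Prop := ∃ C₀ : ℝ, 0 ≤ C₀ ∧ ∀ A B : ℤ, 4 * A ^ 3 + 27 * B ^ 2 ≠ 0 → QM A B →
  ∀ (x y : ℕ → ℚ) (e : ℝ), GSeq (0 : ℚ) (A : ℚ) (B : ℚ) x y → IsCan x e →
  ∃ (w t : ℕ → ℝ) (n : ℕ → ℕ),
    (∀ v ∈ insert 0 (4 * A ^ 3 + 27 * B ^ 2).natAbs.primeFactors, 0 ≤ w v) ∧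
    (∀ p ∈ (4 * A ^ 3 + 27 * B ^ 2).natAbs.primeFactors, 1 ≤ n p ∧ (∃ a : ℤ, (n p : ℝ) * t p = a) ∧
      (w p ≠ 0 → n p * Real.log 2 ≤ w p) ∧
      |w p - padicValNat p (4 * A ^ 3 + 27 * B ^ 2).natAbs * Real.log p| ≤ C₀ ∧
      (5 ≤ p → w p = padicValNat p (4 * A ^ 3 + 27 * B ^ 2).natAbs * Real.log p ∧
        Real.log p ≤ w p / n p ∧ ((p : ℤ) ∣ A → t p = 0))) ∧
    |w 0 - (HE A B - Real.log |((4 * A ^ 3 + 27 * B ^ 2 : ℤ) : ℝ)|)| ≤ C₀ ∧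
    (∀ k : ℕ, 1 ≤ k →
      ∑ v ∈ insert 0 (4 * A ^ 3 + 27 * B ^ 2).natAbs.primeFactors, w v * B2 (k * t v) - C₀ ≤
        144 * (k : ℝ) ^ 2 * e)

end Pool.Agent.Helper42.LS
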