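import Pool.Agent.Helper42.LS.MTb

open Filter Topology

namespace Pool.Agent.Helper42.LS

/-- conclusion of the master inequality for a fixed curve -/
def MData (C₀ : ℝ) (A B : ℤ) (e : ℝ) (w t : ℕ → ℝ) (n : ℕ → ℕ) : Prop :=
    (∀ v ∈ insert 0 (4 * A ^ 3 + 27 * B ^ 2).natAbs.primeFactors, 0 ≤ w v) ∧
    (∀ p ∈ (4 * A ^ 3 + 27 * B ^ 2).natAbs.primeFactors, 1 ≤ n p ∧ (∃ a : ℤ, (n p : ℝ) * t p = a) ∧
      (w p ≠ 0 → n p * Real.log 2 ≤ w p) ∧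
      |w p - padicValNat p (4 * A ^ 3 + 27 * B ^ 2).natAbs * Real.log p| ≤ C₀ ∧
      (5 ≤ p → w p = padicValNat p (4 * A ^ 3 + 27 * B ^ 2).natAbs * Real.log p ∧
        Real.log p ≤ w p / n p ∧ ((p : ℤ) ∣ A → t p = 0))) ∧
    |w 0 - (HE A B - Real.log |((4 * A ^ 3 + 27 * B ^ 2 : ℤ) : ℝ)|)| ≤ C₀ ∧
    (∀ k : ℕ, 1 ≤ k →
      ∑ v ∈ insert 0 (4 * A ^ 3 + 27 * B ^ 2).natAbs.primeFactors, w v * B2 (k * t v) - C₀ ≤
        144 * (k : ℝ) ^ 2 * e)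

lemma fin_log_disc (D : ℤ) (hD : D ≠ 0) :
    Real.log |((D : ℤ) : ℝ)| =
      ∑ p ∈ D.natAbs.primeFactors, (padicValNat p D.natAbs : ℝ) * Real.log p := by
  have h0 : D.natAbs ≠ 0 := by simpa using hD
  have h1 : (|((D : ℤ) : ℝ)|) = ((D.natAbs : ℕ) : ℝ) := by
    rw [Nat.cast_natAbs]; push_cast; rfl
  rw [h1]
  conv_lhs => rw [← Nat.prod_factorization_pow_eq_self h0]
  rw [Finsupp.prod, Nat.support_factorization]
  push_cast
  rw [Real.log_prod]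
  · apply Finset.sum_congr rfl
    intro p hp
    rw [Real.log_pow, Nat.factorization_def _ (Nat.prime_of_mem_primeFactors hp)]
  · intro p hp
    have := (Nat.prime_of_mem_primeFactors hp).pos
    positivity

lemma fin_HE_pos (A B : ℤ) (hD : 4 * A ^ 3 + 27 * B ^ 2 ≠ 0) : 1 ≤ HE A B := by
  unfold HE
  have h1 : (4 : ℝ) ≤ max (4 * |(A : ℝ)| ^ 3) (27 * (B : ℝ) ^ 2) := by
    by_cases hA : A = 0
    · have hB : B ≠ 0 := by rintro rfl; apply hD; rw [hA]; ring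
      apply le_trans _ (le_max_right _ _)
      have : (1 : ℝ) ≤ (B : ℝ) ^ 2 := by
        have h2 : (1 : ℤ) ≤ B ^ 2 := by
          have := sq_pos_of_ne_zero hB
          omega
        exact_mod_cast h2
      linarith
    · apply le_trans _ (le_max_left _ _)
      have : (1 : ℝ) ≤ |(A : ℝ)| ^ 3 := by
        have h2 : (1 : ℝ) ≤ |(A : ℝ)| := by
          have h3 : (1 : ℤ) ≤ |A| := Int.one_le_abs hA
          have : ((1 : ℤ) : ℝ) ≤ ((|A| : ℤ) : ℝ) := by exact_mod_cast h3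
          simpa using this
        exact one_le_pow₀ h2
      linarith
  have h2 : Real.exp 1 ≤ 4 := by
    have := Real.exp_one_lt_d9; linarith
  calc (1 : ℝ) = Real.log (Real.exp 1) := by simp
    _ ≤ Real.log 4 := Real.log_le_log (Real.exp_pos 1) h2
    _ ≤ _ := Real.log_le_log (by norm_num) h1

lemma fin_log_le_HE (A B : ℤ) (hD : 4 * A ^ 3 + 27 * B ^ 2 ≠ 0) :
    Real.log |((4 * A ^ 3 + 27 * B ^ 2 : ℤ) : ℝ)| ≤ HE A B + 1 := by
  have hd0 : 0 < |((4 * A ^ 3 + 27 * B ^ 2 : ℤ) : ℝ)| := by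
    rw [abs_pos]; exact_mod_cast hD
  set a : ℝ := 4 * |(A : ℝ)| ^ 3 with ha
  set b : ℝ := 27 * (B : ℝ) ^ 2 with hb
  have hdab : |((4 * A ^ 3 + 27 * B ^ 2 : ℤ) : ℝ)| ≤ a + b := by
    push_cast
    calc |4 * (A : ℝ) ^ 3 + 27 * (B : ℝ) ^ 2| ≤ |4 * (A : ℝ) ^ 3| + |27 * (B : ℝ) ^ 2| := abs_add_le _ _
      _ = a + b := by
        rw [abs_mul, abs_mul, abs_pow, abs_pow, ha, hb, sq_abs]
        norm_num
  have h1 := le_max_left a b
  have h2 := le_max_right a b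
  have h3 : |((4 * A ^ 3 + 27 * B ^ 2 : ℤ) : ℝ)| ≤ 2 * max a b := by linarith
  have h4 : 0 < max a b := by
    by_contra h
    push Not at h
    linarith
  have h5 := Real.log_le_log hd0 h3
  rw [Real.log_mul (by norm_num) h4.ne'] at h5
  have hHE : HE A B = Real.log (max a b) := rfl
  have := Real.log_two_lt_d9
  rw [hHE]; linarith

/-- total weight -/
lemma fin_total {C₀ : ℝ} (hC₀ : 0 ≤ C₀) {A B : ℤ} (hD : 4 * A ^ 3 + 27 * B ^ 2 ≠ 0) {e : ℝ}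
    {w t : ℕ → ℝ} {n : ℕ → ℕ} (h : MData C₀ A B e w t n) :
    |∑ v ∈ insert 0 (4 * A ^ 3 + 27 * B ^ 2).natAbs.primeFactors, w v - HE A B| ≤ 3 * C₀ ∧
    |∑ p ∈ (4 * A ^ 3 + 27 * B ^ 2).natAbs.primeFactors, w p -
      Real.log (|((4 * A ^ 3 + 27 * B ^ 2 : ℤ) : ℝ)|)| ≤ 2 * C₀ := by
  obtain ⟨h1, h2, h3, h4⟩ := h
  set D := 4 * A ^ 3 + 27 * B ^ 2 with hDdef
  have h5 : |∑ p ∈ D.natAbs.primeFactors, w p - Real.log (|((D : ℤ) : ℝ)|)| ≤ 2 * C₀ := by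
    rw [fin_log_disc D hD, ← Finset.sum_sub_distrib]
    calc |∑ p ∈ D.natAbs.primeFactors, (w p - padicValNat p D.natAbs * Real.log p)|
        ≤ ∑ p ∈ D.natAbs.primeFactors, |w p - padicValNat p D.natAbs * Real.log p| :=
          Finset.abs_sum_le_sum_abs _ _
      _ ≤ ∑ p ∈ D.natAbs.primeFactors, (if p < 5 then C₀ else 0) := by
          apply Finset.sum_le_sum
          intro p hp
          have h6 := h2 p hp
          by_cases h7 : p < 5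
          · rw [if_pos h7]; exact h6.2.2.2.1
          · rw [if_neg h7, (h6.2.2.2.2 (by omega)).1, sub_self, abs_zero]
      _ ≤ 2 * C₀ := by
          rw [← Finset.sum_filter, Finset.sum_const, nsmul_eq_mul]
          apply mul_le_mul_of_nonneg_right _ hC₀
          have : D.natAbs.primeFactors.filter (fun p => p < 5) ⊆ {2, 3} := by
            intro p hp
            rw [Finset.mem_filter] at hp
            have hpp := Nat.prime_of_mem_primeFactors hp.1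
            have := hpp.two_le
            have h4 : p ≠ 4 := by rintro rfl; exact absurd hpp (by norm_num)
            have : p = 2 ∨ p = 3 := by omega
            simpa using this
          have := Finset.card_le_card this
          have h2 : ({2, 3} : Finset ℕ).card = 2 := by decide
          rw [h2] at this
          exact_mod_cast this
  refine ⟨?_, h5⟩
  rw [Finset.sum_insert (by simp)]
  rw [abs_le] at h3 h5 ⊢
  constructor <;> linarith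

/-- finiteness of the curves of bounded size -/
lemma fin_small (hNC : ST_NC) (H₀ : ℝ) : ∃ c : ℝ, 0 < c ∧ ∀ A B : ℤ, 4 * A ^ 3 + 27 * B ^ 2 ≠ 0 →
    HE A B ≤ H₀ → ∀ (x y : ℕ → ℚ) (e : ℝ), GSeq (0 : ℚ) (A : ℚ) (B : ℚ) x y → IsCan x e → c ≤ e := by
  obtain ⟨M, hM⟩ : ∃ M : ℕ, Real.exp H₀ ≤ M := exists_nat_ge _
  have hbound : ∀ A B : ℤ, 4 * A ^ 3 + 27 * B ^ 2 ≠ 0 → HE A B ≤ H₀ →
      A ∈ Finset.Icc (-(M : ℤ)) M ∧ B ∈ Finset.Icc (-(M : ℤ)) M := by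
    intro A B hD hH
    have h1 : max (4 * |(A : ℝ)| ^ 3) (27 * (B : ℝ) ^ 2) ≤ (M : ℝ) := by
      have h2 : 0 < max (4 * |(A : ℝ)| ^ 3) (27 * (B : ℝ) ^ 2) := by
        by_contra h
        push Not at h
        have h3 := fin_HE_pos A B hD
        unfold HE at h3
        have h4 : Real.log (max (4 * |(A : ℝ)| ^ 3) (27 * (B : ℝ) ^ 2)) = 0 := by
          have h5 : 0 ≤ max (4 * |(A : ℝ)| ^ 3) (27 * (B : ℝ) ^ 2) :=
            le_trans (by positivity) (le_max_left _ _)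
          rw [le_antisymm h h5, Real.log_zero]
        linarith
      calc max (4 * |(A : ℝ)| ^ 3) (27 * (B : ℝ) ^ 2) =
          Real.exp (HE A B) := by unfold HE; rw [Real.exp_log h2]
        _ ≤ Real.exp H₀ := Real.exp_le_exp.2 hH
        _ ≤ M := hM
    have hA : |(A : ℝ)| ≤ M := by
      have h2 := le_trans (le_max_left _ _) h1
      by_cases hA0 : A = 0
      · rw [hA0]; simp
      · have h3 : (1 : ℝ) ≤ |(A : ℝ)| := by
          have h3 : (1 : ℤ) ≤ |A| := Int.one_le_abs hA0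
          have : ((1 : ℤ) : ℝ) ≤ ((|A| : ℤ) : ℝ) := by exact_mod_cast h3
          simpa using this
        nlinarith [sq_nonneg (|(A : ℝ)|), pow_pos (lt_of_lt_of_le one_pos h3) 2]
    have hB : |(B : ℝ)| ≤ M := by
      have h2 := le_trans (le_max_right _ _) h1
      by_cases hB0 : B = 0
      · rw [hB0]; simp
      · have h3 : (1 : ℝ) ≤ |(B : ℝ)| := by
          have h3 : (1 : ℤ) ≤ |B| := Int.one_le_abs hB0
          have : ((1 : ℤ) : ℝ) ≤ ((|B| : ℤ) : ℝ) := by exact_mod_cast h3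
          simpa using this
        rw [← sq_abs] at h2
        nlinarith
    rw [Finset.mem_Icc, Finset.mem_Icc]
    rw [abs_le] at hA hB
    refine ⟨⟨?_, ?_⟩, ⟨?_, ?_⟩⟩
    · exact_mod_cast hA.1
    · exact_mod_cast hA.2
    · exact_mod_cast hB.1
    · exact_mod_cast hB.2
  have hc : ∀ q : ℤ × ℤ, ∃ c : ℝ, 0 < c ∧ (4 * q.1 ^ 3 + 27 * q.2 ^ 2 ≠ 0 →
      ∀ (x y : ℕ → ℚ) (e : ℝ), GSeq (0 : ℚ) (q.1 : ℚ) (q.2 : ℚ) x y → IsCan x e → c ≤ e) := by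
    intro q
    by_cases hq : 4 * q.1 ^ 3 + 27 * q.2 ^ 2 ≠ 0
    · obtain ⟨c, h1, h2⟩ := hNC q.1 q.2 hq
      exact ⟨c, h1, fun _ => h2⟩
    · exact ⟨1, one_pos, fun h => absurd h hq⟩
  choose c hc0 hc using hc
  set T : Finset (ℤ × ℤ) := Finset.Icc (-(M : ℤ)) M ×ˢ Finset.Icc (-(M : ℤ)) M with hT
  have hne : (insert ((0 : ℤ), (0 : ℤ)) T).Nonempty := ⟨_, Finset.mem_insert_self _ _⟩
  obtain ⟨q₀, _, hq₀⟩ := Finset.exists_min_image (insert ((0 : ℤ), (0 : ℤ)) T) c hne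
  refine ⟨c q₀, hc0 q₀, ?_⟩
  intro A B hD hH x y e hg he
  have h1 := hbound A B hD hH
  have h2 : (A, B) ∈ T := Finset.mem_product.2 h1
  exact (hq₀ (A, B) (Finset.mem_insert_of_mem h2)).trans (hc (A, B) hD x y e hg he)

/-- one dominating place -/
lemma fin_CK (hCK : ST_CK) {C₀ : ℝ} {A B : ℤ} {e : ℝ}
    {w t : ℕ → ℝ} {n : ℕ → ℕ} (h : MData C₀ A B e w t n) {κ : ℝ} (hκ : 0 < κ) (hκ1 : κ ≤ 1)
    {v₀ : ℕ} (hv : v₀ ∈ insert 0 (4 * A ^ 3 + 27 * B ^ 2).natAbs.primeFactors)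
    (hw : κ * (∑ v ∈ insert 0 (4 * A ^ 3 + 27 * B ^ 2).natAbs.primeFactors, w v) ≤ w v₀)
    (hbig : 160 * C₀ ≤ κ * (∑ v ∈ insert 0 (4 * A ^ 3 + 27 * B ^ 2).natAbs.primeFactors, w v)) :
    κ ^ 3 * (∑ v ∈ insert 0 (4 * A ^ 3 + 27 * B ^ 2).natAbs.primeFactors, w v) / 5184000 ≤ e := by
  obtain ⟨h1, h2, h3, h4⟩ := h
  set V := insert 0 (4 * A ^ 3 + 27 * B ^ 2).natAbs.primeFactors with hV
  set W := ∑ v ∈ V, w v with hW
  have hW0 : 0 ≤ W := Finset.sum_nonneg h1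
  obtain ⟨k, hk1, hk2, hk3⟩ := hCK V w t κ v₀ h1 hv hκ hκ1 hw
  have h5 := h4 k hk1
  have hk1' : (1 : ℝ) ≤ k := by exact_mod_cast hk1
  have h6 : κ * W / 160 ≤ 144 * (k : ℝ) ^ 2 * e := by
    rw [← hW] at hk3
    linarith
  have h7 : κ ^ 2 * (k : ℝ) ^ 2 ≤ 225 := by
    have : 0 ≤ κ * k := by positivity
    nlinarith
  have h8 : κ ^ 3 * W / 160 ≤ 144 * 225 * e := by
    have he0 : 0 ≤ e := by
      by_contra hcon
      push Not at hcon
      have : 144 * (k : ℝ) ^ 2 * e < 0 := by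
        apply mul_neg_of_pos_of_neg (by positivity) hcon
      have : 0 ≤ κ * W / 160 := by positivity
      linarith
    calc κ ^ 3 * W / 160 = κ ^ 2 * (κ * W / 160) := by ring
      _ ≤ κ ^ 2 * (144 * (k : ℝ) ^ 2 * e) := mul_le_mul_of_nonneg_left h6 (by positivity)
      _ = 144 * (κ ^ 2 * (k : ℝ) ^ 2) * e := by ring
      _ ≤ 144 * 225 * e := by
        apply mul_le_mul_of_nonneg_right _ he0
        linarith
  linarith

/-- Szpiro ratio part -/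
lemma fin_CA (hCA : ST_CA) : ∃ c : ℝ, 0 < c ∧ ∀ {C₀ : ℝ} {A B : ℤ} {e : ℝ}
    {w t : ℕ → ℝ} {n : ℕ → ℕ}, 0 ≤ C₀ → MData C₀ A B e w t n → ∀ R : ℝ, 0 < R →
    R ≤ ∑ p ∈ (4 * A ^ 3 + 27 * B ^ 2).natAbs.primeFactors, w p / n p → C₀ ≤ c * R →
    c * R ^ 5 / (∑ v ∈ insert 0 (4 * A ^ 3 + 27 * B ^ 2).natAbs.primeFactors, w v) ^ 4 ≤ e := by
  obtain ⟨c, hc, hCA⟩ := hCA
  set c' := min (c / 2) (c ^ 3 / 288) with hc'
  have hc'0 : 0 < c' := lt_min (by positivity) (by positivity)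
  refine ⟨c', hc'0, ?_⟩
  intro C₀ A B e w t n hC₀ h R hR hRle hbig
  obtain ⟨h1, h2, h3, h4⟩ := h
  set P := (4 * A ^ 3 + 27 * B ^ 2).natAbs.primeFactors with hP
  set V := insert 0 P with hV
  set W := ∑ v ∈ V, w v with hW
  have hsub : P ⊆ V := Finset.subset_insert _ _
  obtain ⟨k, hk1, hk2, hk3⟩ := hCA V P w t n W R hsub h1 (fun v hv => ⟨(h2 v hv).1, (h2 v hv).2.1⟩)
    hW hR hRle
  have hk1' : (1 : ℝ) ≤ k := by exact_mod_cast hk1
  have hRW : R ≤ W := by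
    refine hRle.trans ?_
    calc ∑ p ∈ P, w p / n p ≤ ∑ p ∈ P, w p := by
          apply Finset.sum_le_sum
          intro p hp
          have hn : (1 : ℝ) ≤ n p := by exact_mod_cast (h2 p hp).1
          exact div_le_self (h1 p (hsub hp)) hn
      _ ≤ W := Finset.sum_le_sum_of_subset_of_nonneg hsub (fun v hv _ => h1 v hv)
  have hW0 : 0 < W := lt_of_lt_of_le hR hRW
  have h5 := h4 k hk1
  have h6 : c / 2 * R ≤ 144 * (k : ℝ) ^ 2 * e := by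
    have h7 : C₀ ≤ c / 2 * R := hbig.trans (mul_le_mul_of_nonneg_right (min_le_left _ _) hR.le)
    linarith
  have he0 : 0 ≤ e := by
    by_contra hcon
    push Not at hcon
    have : 144 * (k : ℝ) ^ 2 * e < 0 := mul_neg_of_pos_of_neg (by positivity) hcon
    have : 0 ≤ c / 2 * R := by positivity
    linarith
  have h7 : c ^ 2 * (k : ℝ) ^ 2 ≤ (W / R) ^ 4 := by
    have h8 : 0 ≤ c * k := by positivity
    calc c ^ 2 * (k : ℝ) ^ 2 = (c * k) ^ 2 := by ring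
      _ ≤ ((W / R) ^ 2) ^ 2 := pow_le_pow_left₀ h8 hk2 2
      _ = (W / R) ^ 4 := by ring
  have h8 : c ^ 3 / 2 * R ≤ 144 * (W / R) ^ 4 * e := by
    calc c ^ 3 / 2 * R = c ^ 2 * (c / 2 * R) := by ring
      _ ≤ c ^ 2 * (144 * (k : ℝ) ^ 2 * e) := mul_le_mul_of_nonneg_left h6 (by positivity)
      _ = 144 * (c ^ 2 * (k : ℝ) ^ 2) * e := by ring
      _ ≤ 144 * (W / R) ^ 4 * e := by
        apply mul_le_mul_of_nonneg_right _ he0
        linarith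
  rw [div_le_iff₀ (by positivity)]
  have h9 : c' ≤ c ^ 3 / 288 := min_le_right _ _
  calc c' * R ^ 5 ≤ c ^ 3 / 288 * R ^ 5 := mul_le_mul_of_nonneg_right h9 (by positivity)
    _ = (c ^ 3 / 2 * R) * (R ^ 4 / 144) := by ring
    _ ≤ (144 * (W / R) ^ 4 * e) * (R ^ 4 / 144) := mul_le_mul_of_nonneg_right h8 (by positivity)
    _ = e * W ^ 4 := by field_simp

/-- second moment part -/
lemma fin_CB (hCB : ST_CB) : ∃ c : ℝ, 0 < c ∧ ∀ {C₀ : ℝ} {A B : ℤ} {e : ℝ}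
    {w t : ℕ → ℝ} {n : ℕ → ℕ}, 0 ≤ C₀ → MData C₀ A B e w t n → ∀ ρ : ℝ, 0 < ρ →
    ρ * (∑ v ∈ insert 0 (4 * A ^ 3 + 27 * B ^ 2).natAbs.primeFactors, w v) ^ 2 ≤
      ∑ v ∈ insert 0 (4 * A ^ 3 + 27 * B ^ 2).natAbs.primeFactors, w v ^ 2 →
    0 < (∑ v ∈ insert 0 (4 * A ^ 3 + 27 * B ^ 2).natAbs.primeFactors, w v) →
    C₀ ≤ c * (ρ ^ (2 / 3 : ℝ) *
      (∑ v ∈ insert 0 (4 * A ^ 3 + 27 * B ^ 2).natAbs.primeFactors, w v)) →
    c * ρ ^ (8 / 3 : ℝ) *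
      (∑ v ∈ insert 0 (4 * A ^ 3 + 27 * B ^ 2).natAbs.primeFactors, w v) ≤ e := by
  -- constants
  set a : ℝ := (23 : ℝ) ^ (-(2 / 3 : ℝ)) / 16 with ha
  have ha0 : 0 < a := by positivity
  set c' : ℝ := a / (144 * 46 ^ 2) with hc'
  have hc'0 : 0 < c' := by positivity
  have hc'a : c' ≤ a := by
    rw [hc']; exact div_le_self ha0.le (by norm_num)
  refine ⟨c', hc'0, ?_⟩
  intro C₀ A B e w t n hC₀ h ρ hρ hρle hWpos hbig
  obtain ⟨h1, h2, h3, h4⟩ := h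
  set P := (4 * A ^ 3 + 27 * B ^ 2).natAbs.primeFactors with hP
  set V := insert 0 P with hV
  set W := ∑ v ∈ V, w v with hW
  set ρ' := ∑ v ∈ V, (w v / W) ^ 2 with hρ'
  have hρρ' : ρ ≤ ρ' := by
    have : ρ' = (∑ v ∈ V, w v ^ 2) / W ^ 2 := by
      rw [hρ', Finset.sum_div]
      apply Finset.sum_congr rfl
      intro v _
      rw [div_pow]
    rw [this, le_div_iff₀ (by positivity)]
    exact hρle
  have hρ'1 : ρ' ≤ 1 := by
    have hs : ∑ v ∈ V, w v / W = 1 := by rw [← Finset.sum_div, ← hW, div_self hWpos.ne']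
    rw [← hs]
    apply Finset.sum_le_sum
    intro v hv
    have h5 : 0 ≤ w v / W := div_nonneg (h1 v hv) hWpos.le
    have h6 : w v / W ≤ 1 := by
      rw [div_le_one hWpos]
      exact Finset.single_le_sum h1 hv
    nlinarith
  have hρ1 : ρ ≤ 1 := hρρ'.trans hρ'1
  set K := ⌈22 / ρ⌉₊ with hK
  have hK1 : 22 / ρ ≤ K := Nat.le_ceil _
  have hK2 : (K : ℝ) ≤ 23 / ρ := by
    have h5 : (K : ℝ) < 22 / ρ + 1 := Nat.ceil_lt_add_one (by positivity)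
    have h6 : 1 ≤ 1 / ρ := by rw [le_div_iff₀ hρ]; linarith
    have h7 : 23 / ρ = 22 / ρ + 1 / ρ := by ring
    linarith
  have hK0 : (0 : ℝ) < K := lt_of_lt_of_le (by positivity) hK1
  obtain ⟨k, hk1, hk2, hk3⟩ := hCB V (fun v => w v / W) t ρ' K
    (fun v hv => div_nonneg (h1 v hv) hWpos.le)
    (by rw [← Finset.sum_div, ← hW, div_self hWpos.ne']) hρ' (by
      calc (22 : ℝ) = ρ * (22 / ρ) := by field_simp
        _ ≤ ρ' * K := mul_le_mul hρρ' hK1 (by positivity) (hρ.le.trans hρρ'))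
  have hk1' : (1 : ℝ) ≤ k := by exact_mod_cast hk1
  have hk2' : (k : ℝ) ≤ 46 / ρ := by
    have : (k : ℝ) ≤ 2 * K := by exact_mod_cast hk2
    have h7 : 46 / ρ = 2 * (23 / ρ) := by ring
    linarith
  have hS : ∑ v ∈ V, w v / W * B2 (k * t v) = (∑ v ∈ V, w v * B2 (k * t v)) / W := by
    rw [Finset.sum_div]
    apply Finset.sum_congr rfl
    intro v _
    ring
  rw [hS, le_div_iff₀ hWpos] at hk3
  have hKp : (23 : ℝ) ^ (-(2 / 3 : ℝ)) * ρ ^ (2 / 3 : ℝ) ≤ (K : ℝ) ^ (-(2 / 3 : ℝ)) := by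
    have h5 : (23 / ρ) ^ (-(2 / 3 : ℝ)) ≤ (K : ℝ) ^ (-(2 / 3 : ℝ)) :=
      Real.rpow_le_rpow_of_nonpos hK0 hK2 (by norm_num)
    have h6 : (23 / ρ) ^ (-(2 / 3 : ℝ)) = (23 : ℝ) ^ (-(2 / 3 : ℝ)) * ρ ^ (2 / 3 : ℝ) := by
      rw [Real.div_rpow (by norm_num) hρ.le, Real.rpow_neg hρ.le, div_inv_eq_mul]
    rw [← h6]; exact h5
  have h5 := h4 k hk1
  have h6 : a * (ρ ^ (2 / 3 : ℝ) * W) ≤ 144 * (k : ℝ) ^ 2 * e := by
    have h7 : 2 * a * (ρ ^ (2 / 3 : ℝ) * W) ≤ ∑ v ∈ V, w v * B2 (k * t v) := by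
      refine le_trans ?_ hk3
      calc 2 * a * (ρ ^ (2 / 3 : ℝ) * W) = ((23 : ℝ) ^ (-(2 / 3 : ℝ)) * ρ ^ (2 / 3 : ℝ)) / 8 * W := by
            rw [ha]; ring
        _ ≤ (K : ℝ) ^ (-(2 / 3 : ℝ)) / 8 * W := by
            apply mul_le_mul_of_nonneg_right _ hWpos.le
            linarith
    have h8 : C₀ ≤ a * (ρ ^ (2 / 3 : ℝ) * W) :=
      hbig.trans (mul_le_mul_of_nonneg_right hc'a (by positivity))
    linarith
  have he0 : 0 ≤ e := by
    by_contra hcon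
    push Not at hcon
    have : 144 * (k : ℝ) ^ 2 * e < 0 := mul_neg_of_pos_of_neg (by positivity) hcon
    have : 0 ≤ a * (ρ ^ (2 / 3 : ℝ) * W) := by positivity
    linarith
  have h7 : a * (ρ ^ (2 / 3 : ℝ) * W) ≤ 144 * (46 / ρ) ^ 2 * e := by
    refine h6.trans ?_
    apply mul_le_mul_of_nonneg_right _ he0
    apply mul_le_mul_of_nonneg_left _ (by norm_num)
    exact pow_le_pow_left₀ (by positivity) hk2' 2
  have h8 : ρ ^ (8 / 3 : ℝ) = ρ ^ (2 / 3 : ℝ) * ρ ^ 2 := by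
    rw [show (8 / 3 : ℝ) = 2 / 3 + 2 by norm_num, Real.rpow_add hρ]
    norm_num
  calc c' * ρ ^ (8 / 3 : ℝ) * W = (a * (ρ ^ (2 / 3 : ℝ) * W)) * (ρ ^ 2 / (144 * 46 ^ 2)) := by
        rw [h8, hc']; ring
    _ ≤ (144 * (46 / ρ) ^ 2 * e) * (ρ ^ 2 / (144 * 46 ^ 2)) :=
        mul_le_mul_of_nonneg_right h7 (by positivity)
    _ = e := by field_simp

end Pool.Agent.Helper42.LS
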