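import Pool.Agent.Helper42.LS.FinA

open Filter Topology

namespace Pool.Agent.Helper42.LS

/-- statement R1 for sequences -/
def ST_R1 : Prop := ∃ c : ℝ, 0 < c ∧ ∀ A B : ℤ, 4 * A ^ 3 + 27 * B ^ 2 ≠ 0 → QM A B →
  ∀ (x y : ℕ → ℚ) (e : ℝ), GSeq (0 : ℚ) (A : ℚ) (B : ℚ) x y → IsCan x e →
  c * HE A B ^ (-(17 / 23 : ℝ)) ≤ e

/-- statement R2 for sequences -/
def ST_R2 : Prop := ∃ c : ℝ, 0 < c ∧ ∀ A B : ℤ, 4 * A ^ 3 + 27 * B ^ 2 ≠ 0 → QM A B →
  ∀ (x y : ℕ → ℚ) (e : ℝ), GSeq (0 : ℚ) (A : ℚ) (B : ℚ) x y → IsCan x e →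
  c * HE A B * ((∑ p ∈ (4 * A ^ 3 + 27 * B ^ 2).natAbs.primeFactors, Real.log ((p : ℕ) : ℝ)) /
    Real.log |((4 * A ^ 3 + 27 * B ^ 2 : ℤ) : ℝ)|) ^ 5 ≤ e

/-- statement R3 for sequences -/
def ST_R3 : Prop := ∃ c : ℝ, 0 < c ∧ ∀ A B : ℤ, 4 * A ^ 3 + 27 * B ^ 2 ≠ 0 → QM A B →
  ∀ (x y : ℕ → ℚ) (e : ℝ), GSeq (0 : ℚ) (A : ℚ) (B : ℚ) x y → IsCan x e →
  c * HE A B * (1 + nmult A B : ℝ) ^ (-(8 / 3 : ℝ)) ≤ e

/-- statement R4 for sequences -/
def ST_R4 : Prop := ∃ c : ℝ, 0 < c ∧ ∀ A B : ℤ, 4 * A ^ 3 + 27 * B ^ 2 ≠ 0 → QM A B →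
  ∀ (x y : ℕ → ℚ) (e : ℝ), GSeq (0 : ℚ) (A : ℚ) (B : ℚ) x y → IsCan x e →
  ∀ κ : ℝ, 0 < κ → κ ≤ 1 →
  (κ * HE A B ≤ HE A B - Real.log |((4 * A ^ 3 + 27 * B ^ 2 : ℤ) : ℝ)| ∨
    ∃ p : ℕ, p.Prime ∧ κ * HE A B ≤ padicValNat p (4 * A ^ 3 + 27 * B ^ 2).natAbs * Real.log p) →
  c * κ ^ 3 * HE A B ≤ e

lemma fin_sq_le {P : Finset ℕ} {w : ℕ → ℝ} {n : ℕ → ℕ} (h0 : ∀ p ∈ P, 0 ≤ w p)
    (h1 : ∀ p ∈ P, 1 ≤ n p) (h2 : ∀ p ∈ P, w p ≠ 0 → n p * Real.log 2 ≤ w p) :
    Real.log 2 * (∑ p ∈ P, w p) ^ 2 ≤ (∑ p ∈ P, w p ^ 2) * ∑ p ∈ P, w p / n p := by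
  have hl2 : 0 < Real.log 2 := Real.log_pos (by norm_num)
  have h3 : (∑ p ∈ P, w p) ^ 2 ≤ (∑ p ∈ P, w p * n p) * ∑ p ∈ P, w p / n p := by
    have h4 := Finset.sum_sq_le_sum_mul_sum_of_sq_le_mul P (r := fun p => w p)
      (f := fun p => w p * n p) (g := fun p => w p / n p)
      (fun p hp => mul_nonneg (h0 p hp) (Nat.cast_nonneg _))
      (fun p hp => div_nonneg (h0 p hp) (Nat.cast_nonneg _))
      (fun p hp => by
        have : (n p : ℝ) ≠ 0 := by
          have := h1 p hp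
          positivity
        apply le_of_eq
        field_simp)
    exact h4
  have h5 : Real.log 2 * ∑ p ∈ P, w p * n p ≤ ∑ p ∈ P, w p ^ 2 := by
    rw [Finset.mul_sum]
    apply Finset.sum_le_sum
    intro p hp
    by_cases h : w p = 0
    · rw [h]; simp
    · have := h2 p hp h
      have h6 := h0 p hp
      nlinarith
  have h6 : 0 ≤ ∑ p ∈ P, w p / n p :=
    Finset.sum_nonneg (fun p hp => div_nonneg (h0 p hp) (Nat.cast_nonneg _))
  calc Real.log 2 * (∑ p ∈ P, w p) ^ 2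
      ≤ Real.log 2 * ((∑ p ∈ P, w p * n p) * ∑ p ∈ P, w p / n p) :=
        mul_le_mul_of_nonneg_left h3 hl2.le
    _ = (Real.log 2 * ∑ p ∈ P, w p * n p) * ∑ p ∈ P, w p / n p := by ring
    _ ≤ _ := mul_le_mul_of_nonneg_right h5 h6

/-- if all weights but `m` are zero-position, or few places: comparison -/
lemma fin_few (hCK : ST_CK) {C₀ : ℝ} {A B : ℤ} {e : ℝ}
    {w t : ℕ → ℝ} {n : ℕ → ℕ} (h : MData C₀ A B e w t n) (m : ℕ)
    (hm : (insert 0 (4 * A ^ 3 + 27 * B ^ 2).natAbs.primeFactors).card ≤ m) (hm1 : 1 ≤ m)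
    (hW0 : 0 < ∑ v ∈ insert 0 (4 * A ^ 3 + 27 * B ^ 2).natAbs.primeFactors, w v)
    (hbig : 160 * C₀ ≤ (1 / (m : ℝ)) *
      (∑ v ∈ insert 0 (4 * A ^ 3 + 27 * B ^ 2).natAbs.primeFactors, w v)) :
    (1 / (m : ℝ)) ^ 3 * (∑ v ∈ insert 0 (4 * A ^ 3 + 27 * B ^ 2).natAbs.primeFactors, w v) /
      5184000 ≤ e := by
  set V := insert 0 (4 * A ^ 3 + 27 * B ^ 2).natAbs.primeFactors with hV
  set W := ∑ v ∈ V, w v with hW
  have hmR : (1 : ℝ) ≤ m := by exact_mod_cast hm1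
  have hne : V.Nonempty := ⟨0, Finset.mem_insert_self _ _⟩
  obtain ⟨v₀, hv₀, hmax⟩ := Finset.exists_max_image V w hne
  have h1 : W ≤ V.card * w v₀ := by
    calc W ≤ ∑ _v ∈ V, w v₀ := Finset.sum_le_sum (fun v hv => hmax v hv)
      _ = V.card * w v₀ := by rw [Finset.sum_const, nsmul_eq_mul]
  have hwv0 : 0 ≤ w v₀ := h.1 v₀ hv₀
  have h2 : 1 / (m : ℝ) * W ≤ w v₀ := by
    rw [div_mul_eq_mul_div, one_mul, div_le_iff₀ (by linarith)]
    calc W ≤ V.card * w v₀ := h1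
      _ ≤ m * w v₀ := by
        apply mul_le_mul_of_nonneg_right _ hwv0
        exact_mod_cast hm
      _ = w v₀ * m := by ring
  exact fin_CK hCK h (by positivity) (by rw [div_le_one (by linarith)]; exact hmR) hv₀ h2 hbig

theorem st_R1 (hMT : ST_MT) (hNC : ST_NC) (hCA : ST_CA) (hCB : ST_CB) (hCK : ST_CK) : ST_R1 := by
  obtain ⟨C₀, hC₀, hMT⟩ := hMT
  obtain ⟨cA, hcA, hA⟩ := fin_CA hCA
  obtain ⟨cB, hcB, hB⟩ := fin_CB hCB
  have hl2 : 0 < Real.log 2 := Real.log_pos (by norm_num)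
  have hl21 : Real.log 2 < 1 := by have := Real.log_two_lt_d9; linarith
  -- constants
  set R₀ : ℝ := C₀ / cA + 1 with hR₀
  have hR₀1 : 1 ≤ R₀ := by rw [hR₀]; have : 0 ≤ C₀ / cA := by positivity
                           linarith
  -- rho = lam / R with lam = log 2 / 4
  set lam : ℝ := Real.log 2 / 4 with hlam
  have hlam0 : 0 < lam := by positivity
  have hlam1 : lam ≤ 1 := by rw [hlam]; linarith
  set b : ℝ := cB * lam ^ (8 / 3 : ℝ) with hb
  have hb0 : 0 < b := by positivity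
  -- threshold for W
  set W₀ : ℝ := max 1 (max (320 * C₀) (max ((C₀ / (cB * lam ^ (2 / 3 : ℝ))) ^ 3)
    (C₀ / (cB * (lam / R₀) ^ (2 / 3 : ℝ))))) with hW₀
  have hW₀1 : 1 ≤ W₀ := le_max_left _ _
  have hW₀2 : 320 * C₀ ≤ W₀ := le_trans (le_max_left _ _) (le_max_right _ _)
  have hW₀3 : (C₀ / (cB * lam ^ (2 / 3 : ℝ))) ^ 3 ≤ W₀ :=
    le_trans (le_trans (le_max_left _ _) (le_max_right _ _)) (le_max_right _ _)
  have hW₀4 : C₀ / (cB * (lam / R₀) ^ (2 / 3 : ℝ)) ≤ W₀ :=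
    le_trans (le_trans (le_max_right _ _) (le_max_right _ _)) (le_max_right _ _)
  set H₀ : ℝ := W₀ + 6 * C₀ + 1 with hH₀
  obtain ⟨cs, hcs, hsmall⟩ := fin_small hNC H₀
  -- final constant
  set c1 : ℝ := (1 / 2) ^ 3 / 5184000 with hc1
  set c2 : ℝ := cB * (lam / R₀) ^ (8 / 3 : ℝ) with hc2
  set c3 : ℝ := min cA b with hc3
  obtain ⟨mm, hmm⟩ : ∃ mm : ℝ, mm = min cs (min (min c1 c2) c3) := ⟨_, rfl⟩
  set c : ℝ := mm / 4 with hc
  have hc10 : 0 < c1 := by rw [hc1]; positivity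
  have hc20 : 0 < c2 := by rw [hc2]; positivity
  have hc30 : 0 < c3 := lt_min hcA hb0
  have hcmin : 0 < mm := by rw [hmm]; exact lt_min hcs (lt_min (lt_min hc10 hc20) hc30)
  have hc0 : 0 < c := by rw [hc]; positivity
  refine ⟨c, hc0, ?_⟩
  intro A B hD hq x y e hg he
  have hH1 := fin_HE_pos A B hD
  have hHpos : 0 < HE A B := by linarith
  have hHp1 : HE A B ^ (-(17 / 23 : ℝ)) ≤ 1 := by
    have := Real.rpow_le_rpow_of_exponent_le hH1 (show (-(17 / 23 : ℝ)) ≤ 0 by norm_num)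
    rwa [Real.rpow_zero] at this
  have hHp0 : 0 < HE A B ^ (-(17 / 23 : ℝ)) := Real.rpow_pos_of_pos hHpos _
  by_cases hHs : HE A B ≤ H₀
  · have h1 := hsmall A B hD hHs x y e hg he
    have h2 : c ≤ cs := by
      rw [hc]
      have : mm ≤ cs := by rw [hmm]; exact min_le_left _ _
      linarith
    calc c * HE A B ^ (-(17 / 23 : ℝ)) ≤ c * 1 := mul_le_mul_of_nonneg_left hHp1 hc0.le
      _ ≤ cs := by linarith
      _ ≤ e := h1
  · push Not at hHs
    obtain ⟨w, t, n, hM⟩ := hMT A B hD hq x y e hg he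
    have hM' : MData C₀ A B e w t n := hM
    obtain ⟨htot, -⟩ := fin_total hC₀ hD hM'
    obtain ⟨h1, h2, h3, h4⟩ := hM
    set P := (4 * A ^ 3 + 27 * B ^ 2).natAbs.primeFactors with hP
    set V := insert 0 P with hV
    set W := ∑ v ∈ V, w v with hW
    rw [abs_le] at htot
    have hWH : W ≤ 2 * HE A B := by linarith
    have hWH' : W₀ ≤ W := by linarith
    have hW1 : 1 ≤ W := hW₀1.trans hWH'
    have hW0 : 0 < W := by linarith
    -- comparison of powers
    have hpow : HE A B ^ (-(17 / 23 : ℝ)) ≤ 4 * W ^ (-(17 / 23 : ℝ)) := by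
      have h5 : W / 2 ≤ HE A B := by linarith
      calc HE A B ^ (-(17 / 23 : ℝ)) ≤ (W / 2) ^ (-(17 / 23 : ℝ)) :=
            Real.rpow_le_rpow_of_nonpos (by positivity) h5 (by norm_num)
        _ = 2 ^ (17 / 23 : ℝ) * W ^ (-(17 / 23 : ℝ)) := by
            rw [Real.div_rpow hW0.le (by norm_num), Real.rpow_neg (by norm_num : (0 : ℝ) ≤ 2)]
            rw [div_inv_eq_mul]; ring
        _ ≤ 4 * W ^ (-(17 / 23 : ℝ)) := by
            apply mul_le_mul_of_nonneg_right _ (by positivity)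
            calc (2 : ℝ) ^ (17 / 23 : ℝ) ≤ 2 ^ (1 : ℝ) :=
                  Real.rpow_le_rpow_of_exponent_le (by norm_num) (by norm_num)
              _ ≤ 4 := by norm_num
    have hWp1 : W ^ (-(17 / 23 : ℝ)) ≤ W := by
      have := Real.rpow_le_rpow_of_exponent_le hW1 (show (-(17 / 23 : ℝ)) ≤ 1 by norm_num)
      rwa [Real.rpow_one] at this
    -- it suffices
    have hsuff : ∀ c' : ℝ, mm ≤ c' →
        c' * W ^ (-(17 / 23 : ℝ)) ≤ e → c * HE A B ^ (-(17 / 23 : ℝ)) ≤ e := by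
      intro c' hc' hle
      calc c * HE A B ^ (-(17 / 23 : ℝ)) ≤ c * (4 * W ^ (-(17 / 23 : ℝ))) :=
            mul_le_mul_of_nonneg_left hpow hc0.le
        _ = mm * W ^ (-(17 / 23 : ℝ)) := by rw [hc]; ring
        _ ≤ c' * W ^ (-(17 / 23 : ℝ)) := mul_le_mul_of_nonneg_right hc' (by positivity)
        _ ≤ e := hle
    have hmin1 : mm ≤ c1 := by
      rw [hmm]; exact (min_le_right _ _).trans ((min_le_left _ _).trans (min_le_left _ _))
    have hmin2 : mm ≤ c2 := by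
      rw [hmm]; exact (min_le_right _ _).trans ((min_le_left _ _).trans (min_le_right _ _))
    have hmin3 : mm ≤ c3 := by
      rw [hmm]; exact (min_le_right _ _).trans (min_le_right _ _)
    by_cases hcase : W / 2 ≤ w 0
    · -- the real place dominates
      have h5 := fin_CK hCK hM' (κ := 1 / 2) (by norm_num) (by norm_num)
        (Finset.mem_insert_self _ _) (by rw [← hP, ← hV, ← hW]; linarith)
        (by rw [← hP, ← hV, ← hW]; linarith)
      rw [← hP, ← hV, ← hW] at h5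
      apply hsuff c1 hmin1
      calc c1 * W ^ (-(17 / 23 : ℝ)) ≤ c1 * W := mul_le_mul_of_nonneg_left hWp1 hc10.le
        _ = (1 / 2) ^ 3 * W / 5184000 := by rw [hc1]; ring
        _ ≤ e := h5
    · push Not at hcase
      have hWf : W / 2 ≤ ∑ p ∈ P, w p := by
        have : W = w 0 + ∑ p ∈ P, w p := by
          rw [hW, hV, Finset.sum_insert (by rw [hP]; simp)]
        linarith
      set R := ∑ p ∈ P, w p / n p with hR
      have hsub : P ⊆ V := Finset.subset_insert _ _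
      have hwP : ∀ p ∈ P, 0 ≤ w p := fun p hp => h1 p (hsub hp)
      have hnP : ∀ p ∈ P, 1 ≤ n p := fun p hp => (h2 p hp).1
      have hCS := fin_sq_le hwP hnP (fun p hp => (h2 p hp).2.2.1)
      rw [← hR] at hCS
      have hRW : R ≤ W := by
        calc R ≤ ∑ p ∈ P, w p := by
              apply Finset.sum_le_sum
              intro p hp
              have hn : (1 : ℝ) ≤ n p := by exact_mod_cast hnP p hp
              exact div_le_self (hwP p hp) hn
          _ ≤ W := Finset.sum_le_sum_of_subset_of_nonneg hsub (fun v hv _ => h1 v hv)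
      have hR0 : 0 < R := by
        by_contra hcon
        push Not at hcon
        have hRnn : 0 ≤ R := Finset.sum_nonneg (fun p hp => div_nonneg (hwP p hp) (Nat.cast_nonneg _))
        have hRz : R = 0 := le_antisymm hcon hRnn
        rw [hRz, mul_zero] at hCS
        have : 0 < Real.log 2 * (∑ p ∈ P, w p) ^ 2 := by
          have : 0 < ∑ p ∈ P, w p := by linarith
          positivity
        linarith
      have hρ : ∀ R' : ℝ, R ≤ R' → lam / R' * W ^ 2 ≤ ∑ v ∈ V, w v ^ 2 := by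
        intro R' hRR'
        have hR'0 : 0 < R' := lt_of_lt_of_le hR0 hRR'
        rw [div_mul_eq_mul_div, div_le_iff₀ hR'0]
        have h5 : (W / 2) ^ 2 ≤ (∑ p ∈ P, w p) ^ 2 := pow_le_pow_left₀ (by positivity) hWf 2
        have h6 : ∑ p ∈ P, w p ^ 2 ≤ ∑ v ∈ V, w v ^ 2 :=
          Finset.sum_le_sum_of_subset_of_nonneg hsub (fun v _ _ => sq_nonneg _)
        have h7 : 0 ≤ ∑ p ∈ P, w p ^ 2 := Finset.sum_nonneg (fun _ _ => sq_nonneg _)
        calc lam * W ^ 2 = Real.log 2 * (W / 2) ^ 2 := by rw [hlam]; ring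
          _ ≤ Real.log 2 * (∑ p ∈ P, w p) ^ 2 := mul_le_mul_of_nonneg_left h5 hl2.le
          _ ≤ (∑ p ∈ P, w p ^ 2) * R := hCS
          _ ≤ (∑ v ∈ V, w v ^ 2) * R' := mul_le_mul h6 hRR' hR0.le (h7.trans h6)
      by_cases hRs : R < R₀
      · -- R bounded
        have h5 := hB hC₀ hM' (lam / R₀) (by positivity) (by rw [← hP, ← hV, ← hW]; exact hρ R₀ hRs.le)
          (by rw [← hP, ← hV, ← hW]; exact hW0) (by
            rw [← hP, ← hV, ← hW]
            have h6 : C₀ / (cB * (lam / R₀) ^ (2 / 3 : ℝ)) ≤ W := hW₀4.trans hWH'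
            rw [div_le_iff₀ (by positivity)] at h6
            linarith)
        rw [← hP, ← hV, ← hW] at h5
        apply hsuff c2 hmin2
        calc c2 * W ^ (-(17 / 23 : ℝ)) ≤ c2 * W := mul_le_mul_of_nonneg_left hWp1 hc20.le
          _ ≤ e := h5
      · push Not at hRs
        have hR1 : 1 ≤ R := hR₀1.trans hRs
        apply hsuff c3 hmin3
        by_cases hRW' : R ≤ W ^ (15 / 23 : ℝ)
        · -- second moment
          have h5 := hB hC₀ hM' (lam / R) (by positivity)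
            (by rw [← hP, ← hV, ← hW]; exact hρ R le_rfl)
            (by rw [← hP, ← hV, ← hW]; exact hW0) (by
              rw [← hP, ← hV, ← hW]
              rw [Real.div_rpow hlam0.le hR0.le]
              have h6 : R ^ (2 / 3 : ℝ) ≤ W ^ (2 / 3 : ℝ) :=
                Real.rpow_le_rpow hR0.le hRW (by norm_num)
              have h7 : W ^ (1 / 3 : ℝ) ≤ W / R ^ (2 / 3 : ℝ) := by
                rw [le_div_iff₀ (by positivity)]
                calc W ^ (1 / 3 : ℝ) * R ^ (2 / 3 : ℝ) ≤ W ^ (1 / 3 : ℝ) * W ^ (2 / 3 : ℝ) :=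
                      mul_le_mul_of_nonneg_left h6 (by positivity)
                  _ = W := by
                      rw [← Real.rpow_add hW0]; norm_num
              have h8 : C₀ / (cB * lam ^ (2 / 3 : ℝ)) ≤ W ^ (1 / 3 : ℝ) := by
                have h9 : (C₀ / (cB * lam ^ (2 / 3 : ℝ))) ^ 3 ≤ W := hW₀3.trans hWH'
                have h10 := Real.rpow_le_rpow (by positivity) h9 (show (0 : ℝ) ≤ 1 / 3 by norm_num)
                rw [← Real.rpow_natCast, ← Real.rpow_mul (by positivity)] at h10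
                norm_num at h10
                exact h10
              rw [div_le_iff₀ (by positivity)] at h8
              calc C₀ ≤ W ^ (1 / 3 : ℝ) * (cB * lam ^ (2 / 3 : ℝ)) := h8
                _ ≤ (W / R ^ (2 / 3 : ℝ)) * (cB * lam ^ (2 / 3 : ℝ)) :=
                    mul_le_mul_of_nonneg_right h7 (by positivity)
                _ = cB * (lam ^ (2 / 3 : ℝ) / R ^ (2 / 3 : ℝ) * W) := by ring)
          rw [← hP, ← hV, ← hW] at h5
          have h6 : W ^ (-(40 / 23 : ℝ)) ≤ R ^ (-(8 / 3 : ℝ)) := by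
            have h7 := Real.rpow_le_rpow_of_nonpos hR0 hRW' (show (-(8 / 3 : ℝ)) ≤ 0 by norm_num)
            rw [← Real.rpow_mul hW0.le] at h7
            norm_num at h7 ⊢
            exact h7
          have h7 : W ^ (-(17 / 23 : ℝ)) = W * W ^ (-(40 / 23 : ℝ)) := by
            nth_rewrite 2 [← Real.rpow_one W]
            rw [← Real.rpow_add hW0]; norm_num
          calc c3 * W ^ (-(17 / 23 : ℝ)) ≤ b * (W * W ^ (-(40 / 23 : ℝ))) := by
                rw [h7]; exact mul_le_mul_of_nonneg_right (min_le_right _ _) (by positivity)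
            _ ≤ b * (W * R ^ (-(8 / 3 : ℝ))) := by
                apply mul_le_mul_of_nonneg_left _ hb0.le
                exact mul_le_mul_of_nonneg_left h6 hW0.le
            _ = cB * (lam / R) ^ (8 / 3 : ℝ) * W := by
                rw [Real.div_rpow hlam0.le hR0.le, Real.rpow_neg hR0.le, hb]
                ring
            _ ≤ e := h5
        · push Not at hRW'
          have h5 := hA hC₀ hM' R hR0 le_rfl (by
            have h6 : C₀ / cA ≤ R := by
              have : C₀ / cA ≤ R₀ := by rw [hR₀]; linarith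
              exact this.trans hRs
            rw [div_le_iff₀ hcA] at h6
            linarith)
          rw [← hP, ← hV, ← hW] at h5
          have h6 : W ^ (75 / 23 : ℝ) ≤ R ^ 5 := by
            have h7 := pow_le_pow_left₀ (by positivity) hRW'.le 5
            rw [← Real.rpow_natCast (W ^ (15 / 23 : ℝ)), ← Real.rpow_mul hW0.le] at h7
            norm_num at h7
            exact h7
          have h7 : W ^ (-(17 / 23 : ℝ)) = W ^ (75 / 23 : ℝ) / W ^ 4 := by
            rw [← Real.rpow_natCast W 4, ← Real.rpow_sub hW0]; norm_num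
          calc c3 * W ^ (-(17 / 23 : ℝ)) ≤ cA * (W ^ (75 / 23 : ℝ) / W ^ 4) := by
                rw [h7]; exact mul_le_mul_of_nonneg_right (min_le_left _ _) (by positivity)
            _ ≤ cA * (R ^ 5 / W ^ 4) := by
                apply mul_le_mul_of_nonneg_left _ hcA.le
                exact div_le_div_of_nonneg_right h6 (by positivity)
            _ = cA * R ^ 5 / W ^ 4 := by ring
            _ ≤ e := h5

end Pool.Agent.Helper42.LS
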