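import Pool.Agent.Helper42.LS.Defs

open Filter Topology

namespace Pool.Agent.Helper42.LS

lemma mt_nr_mul (p : ℕ) [Fact p.Prime] (a b : ℚ) : nr p (a * b) = nr p a * nr p b := by
  unfold nr; rw [padicNorm.mul]; push_cast; ring

lemma mt_nr_pow (p : ℕ) [Fact p.Prime] (a : ℚ) (n : ℕ) : nr p (a ^ n) = nr p a ^ n := by
  induction n with
  | zero => simp [nr]
  | succ n ih => rw [pow_succ, mt_nr_mul, ih, pow_succ]

lemma mt_nr_nonneg (p : ℕ) (a : ℚ) : 0 ≤ nr p a := by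
  unfold nr; exact_mod_cast padicNorm.nonneg a

lemma mt_nr_ne (p : ℕ) [Fact p.Prime] {a : ℚ} (h : a ≠ 0) : nr p a ≠ 0 := by
  unfold nr; exact_mod_cast padicNorm.nonzero h

lemma mt_nr_pos (p : ℕ) [Fact p.Prime] {a : ℚ} (h : a ≠ 0) : 0 < nr p a :=
  lt_of_le_of_ne (mt_nr_nonneg p a) (Ne.symm (mt_nr_ne p h))

lemma mt_nr_zero (p : ℕ) : nr p 0 = 0 := by simp [nr]

lemma mt_nr_div (p : ℕ) [Fact p.Prime] (a b : ℚ) : nr p (a / b) = nr p a / nr p b := by
  unfold nr; rw [padicNorm.div]; push_cast; ring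

lemma mt_nr_val (p : ℕ) [hp : Fact p.Prime] {a : ℚ} (h : a ≠ 0) :
    nr p a = (p : ℝ) ^ (-(padicValRat p a)) := by
  unfold nr; rw [padicNorm.eq_zpow_of_nonzero h]; push_cast; rfl

lemma mt_log_nr (p : ℕ) [hp : Fact p.Prime] {a : ℚ} (h : a ≠ 0) :
    Real.log (nr p a) = -(padicValRat p a : ℝ) * Real.log p := by
  rw [mt_nr_val p h, Real.log_zpow]; push_cast; ring

lemma mt_nr_int (p : ℕ) [Fact p.Prime] (z : ℤ) : nr p (z : ℚ) ≤ 1 := by
  unfold nr; exact_mod_cast padicNorm.of_int z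

lemma mt_nr_lt_one (p : ℕ) [Fact p.Prime] {z : ℤ} (h : (p : ℤ) ∣ z) : nr p (z : ℚ) < 1 := by
  unfold nr
  have := (padicNorm.int_lt_one_iff (p := p) z).2 h
  exact_mod_cast this

lemma mt_nr_eq_one (p : ℕ) [Fact p.Prime] {z : ℤ} (h : ¬ (p : ℤ) ∣ z) : nr p (z : ℚ) = 1 := by
  unfold nr
  have := (padicNorm.int_eq_one_iff (p := p) z).2 h
  exact_mod_cast this

/-- local data at a prime -/
def LocD (C : ℝ) (p : ℕ) (A B : ℤ) (x : ℕ → ℚ) : Prop :=
  ∃ (w t : ℝ) (n : ℕ) (U : ℕ → ℝ), 0 ≤ w ∧ 1 ≤ n ∧ (∃ a : ℤ, (n : ℝ) * t = a) ∧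
    (w ≠ 0 → n * Real.log 2 ≤ w) ∧
    |w - padicValNat p (4 * A ^ 3 + 27 * B ^ 2).natAbs * Real.log p| ≤ C ∧
    (5 ≤ p → w = padicValNat p (4 * A ^ 3 + 27 * B ^ 2).natAbs * Real.log p ∧
      (p ∣ (4 * A ^ 3 + 27 * B ^ 2).natAbs → Real.log p ≤ w / n) ∧ ((p : ℤ) ∣ A → t = 0)) ∧
    (∀ k : ℕ, 1 ≤ k → 4 * U k - (if p < 5 then C else 0) ≤
      U (2 * k) + Real.log (nr p (4 * cu (A : ℚ) B (x k)))) ∧
    (∃ C' : ℝ, ∀ k : ℕ, 1 ≤ k → U k ≤ Real.log (max (nr p (x k)) 1) + C') ∧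
    (∀ k : ℕ, 1 ≤ k → w * B2 (k * t) -
      1 / 6 * (padicValNat p (4 * A ^ 3 + 27 * B ^ 2).natAbs * Real.log p) -
      (if p < 5 then C else 0) ≤ U (12 * k))

lemma mt_dsc (A B : ℤ) : dsc (A : ℚ) (B : ℚ) = ((4 * A ^ 3 + 27 * B ^ 2 : ℤ) : ℚ) := by
  unfold dsc; push_cast; ring

lemma mt_val_dsc (p : ℕ) [Fact p.Prime] (A B : ℤ) :
    padicValRat p (dsc (A : ℚ) (B : ℚ)) = padicValNat p (4 * A ^ 3 + 27 * B ^ 2).natAbs := by
  rw [mt_dsc, padicValRat.of_int]; rfl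

lemma mt_B2_zero : B2 0 = 1 / 6 := by simp [B2]

lemma mt_B2_int (a : ℤ) : B2 a = 1 / 6 := by simp [B2]

lemma mt_B2_le (t : ℝ) : B2 t ≤ 1 / 6 := by
  unfold B2
  have h0 := Int.fract_nonneg t
  have h1 := (Int.fract_lt_one t).le
  nlinarith

lemma mt_B2_ge (t : ℝ) : -(1 / 12) ≤ B2 t := by
  unfold B2
  nlinarith [sq_nonneg (Int.fract t - 1 / 2)]

/-- primes `p ≥ 5` -/
lemma mt_big (hPM : ST_PM) (hPG : ST_PG) (hAD : ST_AD) (C : ℝ) (hC : 0 ≤ C) (p : ℕ) (hp : p.Prime)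
    (h5 : 5 ≤ p) (A B : ℤ)
    (hD : 4 * A ^ 3 + 27 * B ^ 2 ≠ 0) (hq : ¬ ((p : ℤ) ^ 4 ∣ A ∧ (p : ℤ) ^ 6 ∣ B))
    (hpD : p ∣ (4 * A ^ 3 + 27 * B ^ 2).natAbs) (x y : ℕ → ℚ)
    (hg : GSeq (0 : ℚ) (A : ℚ) (B : ℚ) x y) : LocD C p A B x := by
  haveI : Fact p.Prime := ⟨hp⟩
  have hDq : dsc (A : ℚ) (B : ℚ) ≠ 0 := by rw [mt_dsc]; exact_mod_cast hD
  have hlp : 0 < Real.log p := Real.log_pos (by exact_mod_cast (by omega : 1 < p))
  have hl2 : Real.log 2 ≤ Real.log p := Real.log_le_log (by norm_num)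
    (by exact_mod_cast (by omega : 2 ≤ p))
  have hlt : ¬ p < 5 := by omega
  set D := 4 * A ^ 3 + 27 * B ^ 2 with hDdef
  set v := padicValNat p D.natAbs with hv
  have hv1 : 1 ≤ v := by
    rw [hv]
    exact one_le_padicValNat_of_dvd (by simpa using hD) hpD
  have hpD' : (p : ℤ) ∣ D := Int.natCast_dvd.2 hpD
  have h6912 : padicValRat p (6912 : ℚ) = 0 := by
    have h1 : ¬ p ∣ 6912 := by
      intro h
      have : p ∣ 2 ^ 8 * 3 ^ 3 := by norm_num; exact h
      rcases (Nat.Prime.dvd_mul hp).1 this with h | h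
      · have := hp.dvd_of_dvd_pow h
        have := Nat.le_of_dvd (by norm_num) this; omega
      · have := hp.dvd_of_dvd_pow h
        have := Nat.le_of_dvd (by norm_num) this; omega
    have h2 : padicValNat p 6912 = 0 := padicValNat.eq_zero_of_not_dvd h1
    have h3 : padicValRat p ((6912 : ℕ) : ℚ) = ((padicValNat p 6912 : ℕ) : ℤ) :=
      padicValRat.of_nat
    rw [h2] at h3
    simpa using h3
  by_cases hA : (p : ℤ) ∣ A
  · -- additive
    have hB : (p : ℤ) ∣ B := by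
      have h27 : (p : ℤ) ∣ 27 * B ^ 2 := by
        have h1 : (p : ℤ) ∣ 4 * A ^ 3 := Dvd.dvd.mul_left (dvd_pow hA (by norm_num)) 4
        have h2 : 27 * B ^ 2 = D - 4 * A ^ 3 := by rw [hDdef]; ring
        rw [h2]; exact dvd_sub hpD' h1
      have hpp : Prime (p : ℤ) := Nat.prime_iff_prime_int.1 hp
      rcases hpp.dvd_or_dvd h27 with h | h
      · exfalso
        have h' : p ∣ 27 := by exact_mod_cast h
        have : p ∣ 3 ^ 3 := by norm_num; exact h'
        have := hp.dvd_of_dvd_pow this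
        have := Nat.le_of_dvd (by norm_num) this; omega
      · exact hpp.dvd_of_dvd_pow h
    have hx12 := hAD p hp h5 A B hD hq hA hB x y hg
    have key : ∃ U : ℕ → ℝ, (∀ k : ℕ, 1 ≤ k → 4 * U k ≤
        U (2 * k) + Real.log (nr p (4 * cu (A : ℚ) B (x k)))) ∧
        (∃ C' : ℝ, ∀ k : ℕ, 1 ≤ k → U k ≤ Real.log (max (nr p (x k)) 1) + C') ∧
        (∀ k : ℕ, 1 ≤ k → 0 ≤ U (12 * k)) := by
      by_cases hN : padicValRat p (6912 * (A : ℚ) ^ 3 / dsc (A : ℚ) B) < 0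
      · obtain ⟨N, hN'⟩ : ∃ N : ℕ, padicValRat p (6912 * (A : ℚ) ^ 3 / dsc (A : ℚ) B) = -(N : ℤ) := by
          refine ⟨(-(padicValRat p (6912 * (A : ℚ) ^ 3 / dsc (A : ℚ) B))).toNat, ?_⟩
          rw [Int.toNat_of_nonneg (by omega)]; ring
        have hN1 : 1 ≤ N := by omega
        obtain ⟨r, a, U, h1, h2, h3, h4, h5', h6⟩ := hPM p N hp hN1 A B hDq hN' x y hg
        refine ⟨U, h3, h4, fun k hk => ?_⟩
        exact h6 h5 (mt_nr_lt_one p hA) (12 * k) (by omega) (hx12 k hk)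
      · have hle : nr p (6912 * (A : ℚ) ^ 3) ≤ nr p (dsc (A : ℚ) B) := by
          by_cases hA0 : (A : ℚ) = 0
          · rw [hA0]; simp only [ne_eq, OfNat.ofNat_ne_zero, not_false_eq_true, zero_pow, mul_zero]
            rw [mt_nr_zero]; exact mt_nr_nonneg _ _
          · have hne : 6912 * (A : ℚ) ^ 3 ≠ 0 := by positivity
            rw [mt_nr_val p hne, mt_nr_val p hDq]
            apply zpow_le_zpow_right₀ (by exact_mod_cast hp.one_lt.le)
            rw [padicValRat.div hne hDq] at hN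
            omega
        obtain ⟨U, h1, h2, h3, h4⟩ := hPG p hp h5 A B hDq hle x y hg
        exact ⟨U, h1, h2, fun k hk => h4 (12 * k) (by omega) (hx12 k hk)⟩
    obtain ⟨U, hU1, hU2, hU3⟩ := key
    refine ⟨v * Real.log p, 0, 1, U, by positivity, le_refl _, ⟨0, by simp⟩, ?_, ?_, ?_, ?_, hU2, ?_⟩
    · intro _
      have : (1 : ℝ) ≤ v := by exact_mod_cast hv1
      push_cast
      nlinarith
    · rw [sub_self, abs_zero]; exact hC
    · intro _
      refine ⟨rfl, fun _ => ?_, fun _ => rfl⟩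
      have : (1 : ℝ) ≤ v := by exact_mod_cast hv1
      push_cast
      rw [div_one]
      nlinarith
    · intro k hk; rw [if_neg hlt]; linarith [hU1 k hk]
    · intro k hk
      rw [if_neg hlt]
      have := hU3 k hk
      have hb : B2 ((k : ℝ) * 0) = 1 / 6 := by rw [mul_zero, mt_B2_zero]
      rw [hb]; linarith
  · -- multiplicative
    have hA0 : (A : ℚ) ≠ 0 := by
      intro h; apply hA; have : A = 0 := by exact_mod_cast h
      rw [this]; exact dvd_zero _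
    have hvA : padicValRat p (A : ℚ) = 0 := by
      rw [padicValRat.of_int, padicValInt.eq_zero_of_not_dvd hA]; rfl
    have hne : 6912 * (A : ℚ) ^ 3 ≠ 0 := by positivity
    have hval : padicValRat p (6912 * (A : ℚ) ^ 3 / dsc (A : ℚ) B) = -(v : ℤ) := by
      rw [padicValRat.div hne hDq, padicValRat.mul (by norm_num) (pow_ne_zero _ hA0), h6912,
        padicValRat.pow, hvA, mt_val_dsc p A B, ← hDdef, ← hv]
      simp
    obtain ⟨r, a, U, h1, h2, h3, h4, h5', h6⟩ := hPM p v hp hv1 A B hDq hval x y hg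
    have hvR : (0 : ℝ) < v := by exact_mod_cast hv1
    have hr : r = 0 := by
      have h16 : padicValRat p (16 : ℚ) = 0 := by
        have h1 : ¬ p ∣ 16 := by
          intro h
          have : p ∣ 2 ^ 4 := by norm_num; exact h
          have := hp.dvd_of_dvd_pow this
          have := Nat.le_of_dvd (by norm_num) this; omega
        have h2 : padicValNat p 16 = 0 := padicValNat.eq_zero_of_not_dvd h1
        have h3 : padicValRat p ((16 : ℕ) : ℚ) = ((padicValNat p 16 : ℕ) : ℤ) :=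
          padicValRat.of_nat
        rw [h2] at h3
        simpa using h3
      rw [padicValRat.mul (by norm_num) hDq, h16, mt_val_dsc p A B] at h1
      have h1' : (0 : ℤ) + (v : ℤ) = v + 6 * r := h1
      omega
    refine ⟨v * Real.log p, 6 * a / v, v, U, by positivity, hv1, ⟨6 * a, by push_cast; field_simp⟩,
      ?_, ?_, ?_, ?_, h4, ?_⟩
    · intro _
      nlinarith
    · rw [sub_self, abs_zero]; exact hC
    · intro _
      refine ⟨rfl, fun _ => ?_, fun h => absurd h hA⟩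
      rw [mul_comm, mul_div_assoc, div_self hvR.ne', mul_one]
    · intro k hk; rw [if_neg hlt]; linarith [h3 k hk]
    · intro k hk
      rw [if_neg hlt]
      have := h5' (12 * k) (by omega)
      rw [hr] at this
      have e1 : (((12 * k : ℕ) : ℝ) * ((a : ℝ) / (2 * v))) = k * (6 * a / v) := by
        push_cast; field_simp; ring
      rw [e1] at this
      have e2 : (v : ℝ) * Real.log p * (B2 (k * (6 * a / v)) - 1 / 6) =
        v * Real.log p * B2 (k * (6 * a / v)) - 1 / 6 * (v * Real.log p) := by ring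
      rw [e2] at this
      push_cast at this
      linarith

end Pool.Agent.Helper42.LS
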