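import Pool.Agent.Helper42.LS.MTa

open Filter Topology

namespace Pool.Agent.Helper42.LS

/-- valuations at a small prime: the discriminant is close to the denominator of `j` -/
lemma mt_small_pot (p : ℕ) (hp : p.Prime) (h23 : p = 2 ∨ p = 3) (A B : ℤ)
    (hD : 4 * A ^ 3 + 27 * B ^ 2 ≠ 0) (hq : ¬ ((p : ℤ) ^ 4 ∣ A ∧ (p : ℤ) ^ 6 ∣ B))
    (hle : nr p (6912 * (A : ℚ) ^ 3) ≤ nr p (dsc (A : ℚ) B)) :
    padicValNat p (4 * A ^ 3 + 27 * B ^ 2).natAbs ≤ 20 := by
  have : Fact p.Prime := ⟨hp⟩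
  by_contra hcon
  push Not at hcon
  have hDn : (4 * A ^ 3 + 27 * B ^ 2).natAbs ≠ 0 := by simpa using hD
  have hdvd : p ^ 21 ∣ (4 * A ^ 3 + 27 * B ^ 2).natAbs :=
    (padicValNat_dvd_iff_le hDn).2 hcon
  have hdvdz : (p : ℤ) ^ 21 ∣ 4 * A ^ 3 + 27 * B ^ 2 := by
    have := Int.natCast_dvd.2 hdvd
    exact_mod_cast this
  have hDq : dsc (A : ℚ) (B : ℚ) ≠ 0 := by rw [mt_dsc]; exact_mod_cast hD
  -- valuation of A
  have hA : A = 0 ∨ 14 ≤ 3 * padicValInt p A + 1 := by
    by_cases hA0 : A = 0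
    · exact Or.inl hA0
    · right
      have hA0q : (A : ℚ) ≠ 0 := by exact_mod_cast hA0
      have hne : 6912 * (A : ℚ) ^ 3 ≠ 0 := by positivity
      rw [mt_nr_val p hne, mt_nr_val p hDq] at hle
      have h1 := (zpow_le_zpow_iff_right₀ (by exact_mod_cast hp.one_lt : (1 : ℝ) < p)).1 hle
      rw [mt_val_dsc, padicValRat.mul (by norm_num) (pow_ne_zero _ hA0q), padicValRat.pow,
        padicValRat.of_int] at h1
      have h6 : padicValRat p (6912 : ℚ) ≤ 8 := by
        have h3 : padicValRat p ((6912 : ℕ) : ℚ) = ((padicValNat p 6912 : ℕ) : ℤ) :=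
          padicValRat.of_nat
        have h4 : padicValNat p 6912 ≤ 8 := by
          by_contra hc
          push Not at hc
          have h5 : p ^ 9 ∣ 6912 := (padicValNat_dvd_iff_le (by norm_num)).2 hc
          rcases h23 with rfl | rfl <;> norm_num at h5
        have h5 : padicValRat p (6912 : ℚ) = ((padicValNat p 6912 : ℕ) : ℤ) := by
          simpa using h3
        rw [h5]; exact_mod_cast h4
      have h7 : (21 : ℤ) ≤ (padicValNat p (4 * A ^ 3 + 27 * B ^ 2).natAbs : ℤ) := by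
        exact_mod_cast hcon
      have h8 : (padicValNat p (4 * A ^ 3 + 27 * B ^ 2).natAbs : ℤ) ≤
          padicValRat p 6912 + 3 * (padicValInt p A : ℤ) := by
        have e3 : ((3 : ℕ) : ℤ) = 3 := rfl
        rw [e3] at h1
        omega
      omega
  have hA5 : (p : ℤ) ^ 5 ∣ A := by
    rcases hA with h | h
    · rw [h]; exact dvd_zero _
    · have : 5 ≤ padicValInt p A := by omega
      rw [padicValInt] at this
      by_cases hA0 : A = 0
      · rw [hA0]; exact dvd_zero _
      · have h1 : p ^ 5 ∣ A.natAbs := (padicValNat_dvd_iff_le (by simpa using hA0)).2 this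
        have := Int.natCast_dvd.2 h1
        exact_mod_cast this
  have hA3 : (p : ℤ) ^ 15 ∣ 4 * A ^ 3 := by
    have : (p : ℤ) ^ 15 ∣ A ^ 3 := by
      have := pow_dvd_pow_of_dvd hA5 3
      rwa [← pow_mul] at this
    exact Dvd.dvd.mul_left this 4
  have hB2 : (p : ℤ) ^ 15 ∣ 27 * B ^ 2 := by
    have h1 : (p : ℤ) ^ 15 ∣ 4 * A ^ 3 + 27 * B ^ 2 := (pow_dvd_pow _ (by norm_num)).trans hdvdz
    have h2 : 27 * B ^ 2 = (4 * A ^ 3 + 27 * B ^ 2) - 4 * A ^ 3 := by ring
    rw [h2]; exact dvd_sub h1 hA3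
  have hB6 : (p : ℤ) ^ 6 ∣ B := by
    by_cases hB0 : B = 0
    · rw [hB0]; exact dvd_zero _
    · have hBn : B.natAbs ≠ 0 := by simpa using hB0
      have h1 : p ^ 15 ∣ 27 * B.natAbs ^ 2 := by
        have := Int.natCast_dvd.1 (by exact_mod_cast hB2 : ((p ^ 15 : ℕ) : ℤ) ∣ 27 * B ^ 2)
        simpa [Int.natAbs_mul, Int.natAbs_pow] using this
      have h2 : 15 ≤ padicValNat p (27 * B.natAbs ^ 2) :=
        (padicValNat_dvd_iff_le (by positivity)).1 h1
      rw [padicValNat.mul (by norm_num) (pow_ne_zero _ hBn), padicValNat.pow] at h2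
      have h3 : padicValNat p 27 ≤ 3 := by
        by_contra hc
        push Not at hc
        have h5 : p ^ 4 ∣ 27 := (padicValNat_dvd_iff_le (by norm_num)).2 hc
        rcases h23 with rfl | rfl <;> norm_num at h5
      have h4 : 6 ≤ padicValNat p B.natAbs := by omega
      have h5 : p ^ 6 ∣ B.natAbs := (padicValNat_dvd_iff_le hBn).2 h4
      have := Int.natCast_dvd.2 h5
      exact_mod_cast this
  exact hq ⟨(pow_dvd_pow _ (by norm_num)).trans hA5, hB6⟩

/-- valuations at a small prime in the multiplicative case -/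
lemma mt_small_mult (p : ℕ) (hp : p.Prime) (h23 : p = 2 ∨ p = 3) (A B : ℤ)
    (hD : 4 * A ^ 3 + 27 * B ^ 2 ≠ 0) (hq : ¬ ((p : ℤ) ^ 4 ∣ A ∧ (p : ℤ) ^ 6 ∣ B)) (N : ℕ)
    (hN1 : 1 ≤ N)
    (hN : padicValRat p (6912 * (A : ℚ) ^ 3 / dsc (A : ℚ) B) = -(N : ℤ)) :
    N ≤ padicValNat p (4 * A ^ 3 + 27 * B ^ 2).natAbs + 20 ∧
    padicValNat p (4 * A ^ 3 + 27 * B ^ 2).natAbs ≤ N + 20 := by
  have : Fact p.Prime := ⟨hp⟩
  have hDn : (4 * A ^ 3 + 27 * B ^ 2).natAbs ≠ 0 := by simpa using hD
  have hDq : dsc (A : ℚ) (B : ℚ) ≠ 0 := by rw [mt_dsc]; exact_mod_cast hD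
  have hA0 : A ≠ 0 := by
    intro h
    rw [h] at hN
    simp at hN
    omega
  have hA0q : (A : ℚ) ≠ 0 := by exact_mod_cast hA0
  have hne : 6912 * (A : ℚ) ^ 3 ≠ 0 := by positivity
  rw [padicValRat.div hne hDq, mt_val_dsc, padicValRat.mul (by norm_num) (pow_ne_zero _ hA0q),
    padicValRat.pow, padicValRat.of_int] at hN
  have h6' : padicValRat p (6912 : ℚ) = ((padicValNat p 6912 : ℕ) : ℤ) := by
    have h3 : padicValRat p ((6912 : ℕ) : ℚ) = ((padicValNat p 6912 : ℕ) : ℤ) :=
      padicValRat.of_nat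
    simpa using h3
  have h6 : padicValNat p 6912 ≤ 8 := by
    by_contra hc
    push Not at hc
    have h5 : p ^ 9 ∣ 6912 := (padicValNat_dvd_iff_le (by norm_num)).2 hc
    rcases h23 with rfl | rfl <;> norm_num at h5
  rw [h6'] at hN
  set vD := padicValNat p (4 * A ^ 3 + 27 * B ^ 2).natAbs with hvD
  set vA := padicValInt p A with hvA
  -- vD = N + v6912 + 3 vA ; need vA ≤ 3 or from B
  have hvDeq : (vD : ℤ) = N + padicValNat p 6912 + 3 * vA := by
    have e3 : ((3 : ℕ) : ℤ) = 3 := rfl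
    rw [e3] at hN
    omega
  have hAn : A.natAbs ≠ 0 := by simpa using hA0
  have hvA4 : vA ≤ 3 ∨ vA ≤ 3 := by
    by_contra hc
    push Not at hc
    have hvA4 : 4 ≤ vA := by omega
    -- p^4 | A
    have hA4 : p ^ 4 ∣ A.natAbs := (padicValNat_dvd_iff_le hAn).2 hvA4
    have hA4z : (p : ℤ) ^ 4 ∣ A := by
      have := Int.natCast_dvd.2 hA4
      exact_mod_cast this
    -- p ^ (3 vA + 1 + v4..) : 27 B^2 = D - 4 A^3
    have hA3 : (p : ℤ) ^ 12 ∣ 4 * A ^ 3 := by
      have : (p : ℤ) ^ 12 ∣ A ^ 3 := by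
        have := pow_dvd_pow_of_dvd hA4z 3
        rwa [← pow_mul] at this
      exact Dvd.dvd.mul_left this 4
    have hvD13 : 13 ≤ vD := by omega
    have hD13 : p ^ 12 ∣ (4 * A ^ 3 + 27 * B ^ 2).natAbs :=
      (padicValNat_dvd_iff_le hDn).2 (by omega)
    have hD13z : (p : ℤ) ^ 12 ∣ 4 * A ^ 3 + 27 * B ^ 2 := by
      have := Int.natCast_dvd.2 hD13
      exact_mod_cast this
    -- stronger for p = 2 and p = 3 separately
    have hB6 : (p : ℤ) ^ 6 ∣ B := by
      by_cases hB0 : B = 0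
      · rw [hB0]; exact dvd_zero _
      · have hBn : B.natAbs ≠ 0 := by simpa using hB0
        rcases h23 with h2 | h3
        · -- p = 2 : 27 is a unit
          subst h2
          have hB2 : ((2 : ℕ) : ℤ) ^ 12 ∣ 27 * B ^ 2 := by
            have h2 : 27 * B ^ 2 = (4 * A ^ 3 + 27 * B ^ 2) - 4 * A ^ 3 := by ring
            rw [h2]; exact dvd_sub hD13z hA3
          have h1 : 2 ^ 12 ∣ 27 * B.natAbs ^ 2 := by
            have := Int.natCast_dvd.1 (by exact_mod_cast hB2 : ((2 ^ 12 : ℕ) : ℤ) ∣ 27 * B ^ 2)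
            simpa [Int.natAbs_mul, Int.natAbs_pow] using this
          have h2 : 12 ≤ padicValNat 2 (27 * B.natAbs ^ 2) :=
            (padicValNat_dvd_iff_le (by positivity)).1 h1
          rw [padicValNat.mul (by norm_num) (pow_ne_zero _ hBn), padicValNat.pow] at h2
          have h3 : padicValNat 2 27 = 0 := padicValNat.eq_zero_of_not_dvd (by norm_num)
          have h4 : 6 ≤ padicValNat 2 B.natAbs := by omega
          have h5 : 2 ^ 6 ∣ B.natAbs := (padicValNat_dvd_iff_le hBn).2 h4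
          have := Int.natCast_dvd.2 h5
          exact_mod_cast this
        · subst h3
          -- p = 3 : v(4A^3) = 3 vA, v(27 B^2) = 3 + 2 vB, v(D) > 3 vA so 3 + 2 vB = 3 vA
          have h4A : padicValInt 3 (4 * A ^ 3) = 3 * vA := by
            rw [padicValInt.mul (by norm_num) (pow_ne_zero _ hA0)]
            have e1 : padicValInt 3 4 = 0 := padicValInt.eq_zero_of_not_dvd (by norm_num)
            have e2 : padicValInt 3 (A ^ 3) = 3 * padicValInt 3 A := by
              rw [padicValInt, Int.natAbs_pow, padicValNat.pow]; rfl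
            rw [e1, e2]; omega
          have h69 : padicValNat 3 6912 = 3 := by
            have h1 : 3 ^ 3 ∣ 6912 := by norm_num
            have h2 : ¬ 3 ^ 4 ∣ 6912 := by norm_num
            have h3 : 3 ≤ padicValNat 3 6912 := (padicValNat_dvd_iff_le (by norm_num)).1 h1
            have h4 : ¬ 4 ≤ padicValNat 3 6912 := fun h =>
              h2 ((padicValNat_dvd_iff_le (by norm_num)).2 h)
            omega
          -- 3^(3 vA) divides 27 B^2
          have hd1 : (3 : ℤ) ^ (3 * vA) ∣ 27 * B ^ 2 := by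
            have h2 : 27 * B ^ 2 = (4 * A ^ 3 + 27 * B ^ 2) - 4 * A ^ 3 := by ring
            rw [h2]
            apply dvd_sub
            · have : 3 ^ (3 * vA) ∣ (4 * A ^ 3 + 27 * B ^ 2).natAbs :=
                (padicValNat_dvd_iff_le hDn).2 (by omega)
              have := Int.natCast_dvd.2 this
              exact_mod_cast this
            · have : 3 ^ (3 * vA) ∣ (4 * A ^ 3).natAbs :=
                (padicValNat_dvd_iff_le (by simpa using hA0)).2 (by rw [← h4A]; exact le_refl _)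
              have := Int.natCast_dvd.2 this
              exact_mod_cast this
          have h1 : 3 ^ (3 * vA) ∣ 27 * B.natAbs ^ 2 := by
            have := Int.natCast_dvd.1 (by exact_mod_cast hd1 : ((3 ^ (3 * vA) : ℕ) : ℤ) ∣ 27 * B ^ 2)
            simpa [Int.natAbs_mul, Int.natAbs_pow] using this
          have h2 : 3 * vA ≤ padicValNat 3 (27 * B.natAbs ^ 2) :=
            (padicValNat_dvd_iff_le (by positivity)).1 h1
          rw [padicValNat.mul (by norm_num) (pow_ne_zero _ hBn), padicValNat.pow] at h2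
          have h3 : padicValNat 3 27 = 3 := by
            have : (27 : ℕ) = 3 ^ 3 := by norm_num
            rw [this, padicValNat.prime_pow]
          rw [h3] at h2
          -- vA ≥ 4; if vA = 4, 12 ≤ 3 + 2 vB gives vB ≥ 5 ; parity: 3 + 2 vB is odd
          by_cases h5 : 6 ≤ padicValNat 3 B.natAbs
          · have h5' : 3 ^ 6 ∣ B.natAbs := (padicValNat_dvd_iff_le hBn).2 h5
            have := Int.natCast_dvd.2 h5'
            exact_mod_cast this
          · exfalso
            have hvB : padicValNat 3 B.natAbs = 5 ∧ vA = 4 := by omega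
            -- then v(27 B^2) = 13 > 12 = v(4A^3) so v(D) = 12 contradiction with 13 ≤ vD
            have h27 : (3 : ℤ) ^ 13 ∣ 27 * B ^ 2 := by
              have : 3 ^ 13 ∣ 27 * B.natAbs ^ 2 := by
                apply (padicValNat_dvd_iff_le (by positivity)).2
                rw [padicValNat.mul (by norm_num) (pow_ne_zero _ hBn), padicValNat.pow, h3]
                omega
              have h'' : 3 ^ 13 ∣ (27 * B ^ 2).natAbs := by
                rw [Int.natAbs_mul, Int.natAbs_pow]; exact this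
              have h' := Int.natCast_dvd.2 h''
              exact_mod_cast h'
            have hDz : (3 : ℤ) ^ 13 ∣ 4 * A ^ 3 + 27 * B ^ 2 := by
              have : 3 ^ 13 ∣ (4 * A ^ 3 + 27 * B ^ 2).natAbs :=
                (padicValNat_dvd_iff_le hDn).2 (by omega)
              have := Int.natCast_dvd.2 this
              exact_mod_cast this
            have h4z : (3 : ℤ) ^ 13 ∣ 4 * A ^ 3 := by
              have h2 : 4 * A ^ 3 = (4 * A ^ 3 + 27 * B ^ 2) - 27 * B ^ 2 := by ring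
              rw [h2]; exact dvd_sub hDz h27
            have : 3 ^ 13 ∣ (4 * A ^ 3).natAbs :=
              Int.natCast_dvd.1 (by exact_mod_cast h4z)
            have h5 : 13 ≤ padicValNat 3 (4 * A ^ 3).natAbs :=
              (padicValNat_dvd_iff_le (by simpa using hA0)).1 this
            have h6 : padicValNat 3 (4 * A ^ 3).natAbs = 3 * vA := h4A
            omega
    exact hq ⟨hA4z, hB6⟩
  have hv3 : vA ≤ 3 := by omega
  constructor <;> omega

/-- primes `p = 2, 3` -/
lemma mt_small (hPM : ST_PM) (hPS : ST_PS) : ∃ C₁ : ℝ, 0 ≤ C₁ ∧ ∀ C : ℝ, C₁ ≤ C → ∀ (p : ℕ),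
    p.Prime → (p = 2 ∨ p = 3) → ∀ (A B : ℤ), 4 * A ^ 3 + 27 * B ^ 2 ≠ 0 →
    ¬ ((p : ℤ) ^ 4 ∣ A ∧ (p : ℤ) ^ 6 ∣ B) → ∀ (x y : ℕ → ℚ),
    GSeq (0 : ℚ) (A : ℚ) (B : ℚ) x y → LocD C p A B x := by
  obtain ⟨C₀, hPS⟩ := hPS
  refine ⟨|C₀| + 100, by positivity, ?_⟩
  intro C hC p hp h23 A B hD hq x y hg
  have : Fact p.Prime := ⟨hp⟩
  have hDq : dsc (A : ℚ) (B : ℚ) ≠ 0 := by rw [mt_dsc]; exact_mod_cast hD
  have hlp : 0 < Real.log p := Real.log_pos (by exact_mod_cast hp.one_lt)
  have hl2 : Real.log 2 ≤ Real.log p := Real.log_le_log (by norm_num)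
    (by exact_mod_cast hp.two_le)
  have hl3 : Real.log p ≤ 2 := by
    have h1 : (p : ℝ) ≤ 3 := by rcases h23 with rfl | rfl <;> norm_num
    have h2 := Real.log_le_log (by exact_mod_cast hp.pos) h1
    have h3 : Real.log 3 ≤ 3 - 1 := Real.log_le_sub_one_of_pos (by norm_num)
    linarith
  have hp5 : p < 5 := by rcases h23 with rfl | rfl <;> norm_num
  have hC0 : 0 ≤ |C₀| := abs_nonneg _
  have hC0' : C₀ ≤ |C₀| := le_abs_self _
  set v := padicValNat p (4 * A ^ 3 + 27 * B ^ 2).natAbs with hv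
  by_cases hN : padicValRat p (6912 * (A : ℚ) ^ 3 / dsc (A : ℚ) B) < 0
  · obtain ⟨N, hN'⟩ : ∃ N : ℕ, padicValRat p (6912 * (A : ℚ) ^ 3 / dsc (A : ℚ) B) = -(N : ℤ) := by
      refine ⟨(-(padicValRat p (6912 * (A : ℚ) ^ 3 / dsc (A : ℚ) B))).toNat, ?_⟩
      rw [Int.toNat_of_nonneg (by omega)]; ring
    have hN1 : 1 ≤ N := by omega
    obtain ⟨hb1, hb2⟩ := mt_small_mult p hp h23 A B hD hq N hN1 hN'
    obtain ⟨r, a, U, h1, h2, h3, h4, h5', h6⟩ := hPM p N hp hN1 A B hDq hN' x y hg
    have hNR : (0 : ℝ) < N := by exact_mod_cast hN1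
    refine ⟨N * Real.log p, 6 * a / N, N, U, by positivity, hN1, ⟨6 * a, by push_cast; field_simp⟩,
      ?_, ?_, fun h => absurd h (by omega), ?_, h4, ?_⟩
    · intro _; nlinarith
    · have e : (N : ℝ) * Real.log p - v * Real.log p = ((N : ℝ) - v) * Real.log p := by ring
      rw [e, abs_mul, abs_of_pos hlp]
      have h7 : |(N : ℝ) - v| ≤ 20 := by
        rw [abs_le]
        have e1 : (N : ℝ) ≤ v + 20 := by exact_mod_cast hb1
        have e2 : (v : ℝ) ≤ N + 20 := by exact_mod_cast hb2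
        constructor <;> linarith
      have := mul_le_mul h7 hl3 hlp.le (by norm_num)
      linarith
    · intro k hk; rw [if_pos hp5]; linarith [h3 k hk]
    · intro k hk
      rw [if_pos hp5]
      have := h5' (12 * k) (by omega)
      have e1 : (((12 * k : ℕ) : ℝ) * ((a : ℝ) / (2 * N))) = k * (6 * a / N) := by
        push_cast; field_simp; ring
      rw [e1] at this
      -- N + 6 r = v(16) + v
      have h16 : padicValRat p (16 : ℚ) ≤ 4 ∧ 0 ≤ padicValRat p (16 : ℚ) := by
        have h3 : padicValRat p ((16 : ℕ) : ℚ) = ((padicValNat p 16 : ℕ) : ℤ) :=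
          padicValRat.of_nat
        have h4 : padicValNat p 16 ≤ 4 := by
          by_contra hc
          push Not at hc
          have h5 : p ^ 5 ∣ 16 := (padicValNat_dvd_iff_le (by norm_num)).2 hc
          rcases h23 with rfl | rfl <;> norm_num at h5
        have h5 : padicValRat p (16 : ℚ) = ((padicValNat p 16 : ℕ) : ℤ) := by
          simpa using h3
        rw [h5]
        exact ⟨by exact_mod_cast h4, by positivity⟩
      rw [padicValRat.mul (by norm_num) hDq, mt_val_dsc p A B] at h1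
      have hr : (r : ℝ) = (padicValRat p (16 : ℚ) + v - N) / 6 := by
        have h1' : padicValRat p (16 : ℚ) + (v : ℤ) = N + 6 * r := h1
        have : ((padicValRat p (16 : ℚ) : ℤ) : ℝ) + v = N + 6 * r := by exact_mod_cast h1'
        linarith
      rw [hr] at this
      have h17 : ((padicValRat p (16 : ℚ) : ℤ) : ℝ) ≤ 4 := by exact_mod_cast h16.1
      have h18 : ((padicValRat p (16 : ℚ) : ℤ) : ℝ) * Real.log p ≤ 4 * 2 := by
        have h19 : (0 : ℝ) ≤ ((padicValRat p (16 : ℚ) : ℤ) : ℝ) := by exact_mod_cast h16.2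
        nlinarith
      nlinarith
  · have hle : nr p (6912 * (A : ℚ) ^ 3) ≤ nr p (dsc (A : ℚ) B) := by
      by_cases hA0 : (A : ℚ) = 0
      · rw [hA0]; simp only [ne_eq, OfNat.ofNat_ne_zero, not_false_eq_true, zero_pow, mul_zero]
        rw [mt_nr_zero]; exact mt_nr_nonneg _ _
      · have hne : 6912 * (A : ℚ) ^ 3 ≠ 0 := by positivity
        rw [mt_nr_val p hne, mt_nr_val p hDq]
        apply zpow_le_zpow_right₀ (by exact_mod_cast hp.one_lt.le)
        rw [padicValRat.div hne hDq] at hN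
        omega
    have hv20 : v ≤ 20 := mt_small_pot p hp h23 A B hD hq hle
    obtain ⟨U, h1, h2, h3⟩ := hPS p h23 (A : ℚ) B hDq hle x y hg
    have hvR : (v : ℝ) ≤ 20 := by exact_mod_cast hv20
    have hv0 : (0 : ℝ) ≤ v := by positivity
    refine ⟨0, 0, 1, U, le_refl _, le_refl _, ⟨0, by simp⟩, fun h => absurd rfl h, ?_,
      fun h => absurd h (by omega), ?_, h2, ?_⟩
    · rw [zero_sub, abs_neg, abs_of_nonneg (by positivity)]
      nlinarith
    · intro k hk; rw [if_pos hp5]; linarith [h1 k hk]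
    · intro k hk
      rw [if_pos hp5]
      have := h3 (12 * k) (by omega)
      rw [mt_log_nr p hDq, mt_val_dsc p A B] at this
      have e : (((padicValNat p (4 * A ^ 3 + 27 * B ^ 2).natAbs : ℕ) : ℤ) : ℝ) = v := by
        rw [hv]; exact Int.cast_natCast _
      rw [e] at this
      linarith

end Pool.Agent.Helper42.LS
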