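import Pool.Agent.Helper42.LS.All

open Filter Topology

namespace Pool.Agent.Helper42.LS

/-- The multiples of a point of infinite order, and its canonical height. -/
theorem pts_seq (A B : ℤ) (hD : 4 * A ^ 3 + 27 * B ^ 2 ≠ 0)
    (P : (EC A B).toAffine.Point) (hP : ∀ n : ℕ, 0 < n → n • P ≠ 0) :
    ∃ (x y : ℕ → ℚ) (e : ℝ), GSeq (0 : ℚ) (A : ℚ) (B : ℚ) x y ∧ IsCan x e ∧
      Tendsto (fun n : ℕ => hx (2 ^ n • P) / 4 ^ n) atTop (𝓝 e) := by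
  obtain ⟨x, y, hg, hxy⟩ := st_GL A B hD P hP
  obtain ⟨C, hC⟩ := all_CH A B hD
  obtain ⟨e, he, -⟩ := hC x y hg
  refine ⟨x, y, e, hg, he, ?_⟩
  have h1 := he 1 le_rfl
  simp only [one_mul, Nat.cast_one, one_pow] at h1
  refine h1.congr (fun n => ?_)
  obtain ⟨h, hh⟩ := hxy (2 ^ n) (Nat.one_le_two_pow)
  rw [hh]
  rfl

end Pool.Agent.Helper42.LS
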